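import Mathlib

/-!
# Friedman's weight argument

For a finite automaton with a left eigenvector `w` of weights, every non-synchronizing automaton
with two heavy states yields a partition of the states into two parts of equal weight.
-/

open Finset

namespace Pool.Agent.Helper86.Sync

variable {V A : Type*} [Fintype V] [Fintype A]

/-- Extended transition function. -/
def run (δ : V → A → V) (w : List A) (v : V) : V := w.foldl δ v

omit [Fintype V] [Fintype A] in
lemma run_append (δ : V → A → V) (w z : List A) (v : V) :
    run δ (w ++ z) v = run δ z (run δ w v) := by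
  simp [run, List.foldl_append]

/-- The automaton has a reset word. -/
def IsSync (δ : V → A → V) : Prop := ∃ w : List A, ∃ q : V, ∀ v : V, run δ w v = q

variable [DecidableEq V]

/-- Preimage of a set under a word. -/
def pre (δ : V → A → V) (w : List A) (S : Finset V) : Finset V :=
  univ.filter fun v => run δ w v ∈ S

omit [Fintype A] in
lemma mem_pre {δ : V → A → V} {w : List A} {S : Finset V} {v : V} :
    v ∈ pre δ w S ↔ run δ w v ∈ S := by simp [pre]

/-- Synchronizable sets. -/
def Sble (δ : V → A → V) (S : Finset V) : Prop := ∃ w : List A, ∃ q : V, ∀ v ∈ S, run δ w v = q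

/-- The weights form a left eigenvector (tested against all functions). -/
def Eig (δ : V → A → V) (w : V → ℕ) : Prop :=
  ∀ g : V → ℕ, ∑ u, w u * ∑ a, g (δ u a) = Fintype.card A * ∑ v, w v * g v

lemma sum_pre {δ : V → A → V} {w : V → ℕ} (h : Eig δ w) (S : Finset V) :
    ∑ a, ∑ v ∈ pre δ [a] S, w v = Fintype.card A * ∑ v ∈ S, w v := by
  have h1 := h fun v => if v ∈ S then 1 else 0
  have h2 : ∑ v, w v * (if v ∈ S then 1 else 0) = ∑ v ∈ S, w v := by
    simp
  rw [h2] at h1
  rw [← h1]
  have h3 : ∀ a : A, ∑ v ∈ pre δ [a] S, w v = ∑ u, w u * (if δ u a ∈ S then 1 else 0) := by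
    intro a
    rw [pre, Finset.sum_filter]
    simp only [mul_ite, mul_one, mul_zero]
    rfl
  simp only [h3]
  rw [Finset.sum_comm]
  simp only [Finset.mul_sum]

/-- **Friedman's argument**, in the form needed here. -/
theorem exists_balanced (δ : V → A → V) (w : V → ℕ) (hw : Eig δ w) (p q : V) (hpq : p ≠ q)
    (hwpq : w p = w q) (hheavy : ∑ v, w v < 3 * w p) (hp : ∀ u, ∃ a, δ u a = p)
    (hq : ∀ u, ∃ a, δ u a = q) (hns : ¬ IsSync δ) :
    ∃ K : Finset V, ∑ v ∈ K, w v = ∑ v ∈ Kᶜ, w v := by
  classical
  -- a synchronizable set of maximal weight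
  obtain ⟨S₀, hS₀, hmax⟩ := Finset.exists_max_image
    ((univ : Finset (Finset V)).filter fun S => Sble δ S) (fun S => ∑ v ∈ S, w v)
    ⟨∅, by simp only [mem_filter, mem_univ, true_and]; exact ⟨[], p, by simp⟩⟩
  simp only [mem_filter, mem_univ, true_and] at hS₀ hmax
  set M := ∑ v ∈ S₀, w v with hM
  have hle : ∀ S, Sble δ S → ∑ v ∈ S, w v ≤ M := hmax
  -- preimages
  have hpre1 : ∀ S, Sble δ S → ∑ v ∈ S, w v = M → ∀ a : A,
      Sble δ (pre δ [a] S) ∧ ∑ v ∈ pre δ [a] S, w v = M := by
    intro S hS hSM
    have hs : ∀ a, Sble δ (pre δ [a] S) := by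
      intro a
      obtain ⟨z, t, hz⟩ := hS
      refine ⟨a :: z, t, fun v hv => ?_⟩
      rw [mem_pre] at hv
      exact hz _ hv
    have h1 := sum_pre hw S
    rw [hSM] at h1
    have h2 : ∑ a : A, ∑ v ∈ pre δ [a] S, w v = ∑ _a : A, M := by
      rw [h1]; simp
    have h3 := (Finset.sum_eq_sum_iff_of_le (fun a _ => hle _ (hs a))).1 h2
    intro a
    exact ⟨hs a, h3 a (mem_univ a)⟩
  have hpre : ∀ z : List A, Sble δ (pre δ z S₀) ∧ ∑ v ∈ pre δ z S₀, w v = M := by
    intro z
    induction z with
    | nil =>
      have : pre δ [] S₀ = S₀ := by ext v; simp [mem_pre, run]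
      rw [this]; exact ⟨hS₀, rfl⟩
    | cons a z ih =>
      have h := hpre1 _ ih.1 ih.2 a
      have : pre δ (a :: z) S₀ = pre δ [a] (pre δ z S₀) := by
        ext v; simp [mem_pre, run]
      rw [this]; exact h
  -- `S₀` contains a heavy state
  have hheavyS : p ∈ S₀ ∨ q ∈ S₀ := by
    by_contra hcon
    push Not at hcon
    have h1 : ∑ v ∈ S₀, w v + (w p + w q) ≤ ∑ v, w v := by
      have hsub : S₀ ⊆ (univ.erase p).erase q := by
        intro v hv
        rw [mem_erase, mem_erase]
        refine ⟨?_, ?_, mem_univ _⟩
        · rintro rfl; exact hcon.2 hv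
        · rintro rfl; exact hcon.1 hv
      have h2 := Finset.sum_le_sum_of_subset (f := w) hsub
      have h3 := Finset.add_sum_erase (univ : Finset V) w (mem_univ p)
      have h4 := Finset.add_sum_erase ((univ : Finset V).erase p) w
        (show q ∈ (univ : Finset V).erase p from mem_erase.2 ⟨hpq.symm, mem_univ _⟩)
      omega
    have h2 : w p ≤ M := by
      have := hle {p} ⟨[], p, by simp [run]⟩
      simpa using this
    omega
  -- a word of minimal rank
  let rk : List A → ℕ := fun u => (univ.image (run δ u)).card
  let u := Function.argmin rk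
  have hu : ∀ z, rk u ≤ rk z := fun z => Function.argmin_le rk z
  have hK : ∀ x ∈ univ.image (run δ u), ∑ v ∈ pre δ u {x}, w v = M := by
    intro x hx
    obtain ⟨r, hr, hr'⟩ : ∃ r, r ∈ S₀ ∧ ∃ a, δ x a = r := by
      rcases hheavyS with h | h
      · exact ⟨p, h, hp x⟩
      · exact ⟨q, h, hq x⟩
    obtain ⟨a, ha⟩ := hr'
    rw [← (hpre (u ++ [a])).2]
    congr 1
    ext v
    rw [mem_pre, mem_pre, mem_singleton, run_append]
    constructor
    · intro h
      rw [h]
      show δ x a ∈ S₀
      rw [ha]; exact hr
    · intro h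
      by_contra hne
      obtain ⟨s, t, hs⟩ := hS₀
      -- two elements of the image are merged
      have hlt : rk (u ++ ([a] ++ s)) < rk u := by
        have himg : univ.image (run δ (u ++ ([a] ++ s))) =
            (univ.image (run δ u)).image (run δ ([a] ++ s)) := by
          rw [Finset.image_image]
          congr 1
          funext v
          exact run_append _ _ _ _
        show (univ.image (run δ (u ++ ([a] ++ s)))).card < _
        rw [himg]
        refine lt_of_le_of_ne Finset.card_image_le ?_
        intro heq
        have hinj := Finset.card_image_iff.1 heq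
        have h1 : run δ ([a] ++ s) (run δ u v) = t := by
          rw [run_append]
          exact hs _ h
        have h2 : run δ ([a] ++ s) x = t := by
          rw [run_append]
          refine hs _ ?_
          show δ x a ∈ S₀
          rw [ha]; exact hr
        exact hne (hinj (by simp) (by exact_mod_cast hx) (h1.trans h2.symm))
      exact absurd (hu (u ++ ([a] ++ s))) (not_le.2 hlt)
  -- the total weight
  have htot : ∑ v, w v = (univ.image (run δ u)).card * M := by
    have h1 : ∑ v, w v = ∑ x ∈ univ.image (run δ u), ∑ v ∈ pre δ u {x}, w v := by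
      rw [← Finset.sum_fiberwise_of_maps_to (g := run δ u) (t := univ.image (run δ u))
        (fun v _ => Finset.mem_image_of_mem _ (mem_univ v))]
      refine Finset.sum_congr rfl fun x _ => ?_
      congr 1
      ext v
      simp [mem_pre]
    rw [h1, Finset.sum_congr rfl hK]
    simp
  have hMp : w p ≤ M := by
    have := hle {p} ⟨[], p, by simp [run]⟩
    simpa using this
  have hcard3 : (univ.image (run δ u)).card < 3 := by
    by_contra hcon
    push Not at hcon
    have : 3 * w p ≤ (univ.image (run δ u)).card * M := Nat.mul_le_mul hcon hMp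
    omega
  have hcard1 : 1 < (univ.image (run δ u)).card := by
    by_contra hcon
    push Not at hcon
    rw [Finset.card_le_one] at hcon
    exact hns ⟨u, run δ u p, fun v => hcon _ (Finset.mem_image_of_mem _ (mem_univ v)) _
      (Finset.mem_image_of_mem _ (mem_univ p))⟩
  have hcard : (univ.image (run δ u)).card = 2 := by omega
  obtain ⟨x, hx⟩ : (univ.image (run δ u)).Nonempty := Finset.card_pos.1 (by omega)
  refine ⟨pre δ u {x}, ?_⟩
  have h1 := Finset.sum_add_sum_compl (pre δ u {x}) w
  rw [hK x hx, htot, hcard] at h1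
  rw [hK x hx]
  omega

end Pool.Agent.Helper86.Sync
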