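import Mathlib
import Pool.Agent.Helper86.Sync.Friedman

/-!
# The digraph of a balancing problem
-/

open Finset

namespace Pool.Agent.Helper86.Sync

/-- Sum over an initial segment, as a list sum. -/
lemma sum_map_range (f : ℕ → ℕ) (t : ℕ) : ((List.range t).map f).sum = ∑ i ∈ range t, f i := by
  induction t with
  | zero => simp
  | succ t ih => rw [List.range_succ, List.map_append, List.sum_append, ih, Finset.sum_range_succ]; simp

section graph

variable (t m β : ℕ) (b : ℕ → ℕ → ℕ)

/-- Sum of a row of the matrix. -/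
def rowSum (j : ℕ) : ℕ := ((List.range t).map fun i => b i j).sum

/-- Out-neighbours of the items and of the last hubs. -/
def base : List ℕ := List.replicate β 0 ++ List.replicate β (m + 1)

/-- Out-neighbours of the hubs of level `j < m`. -/
def hub (j : ℕ) : List ℕ :=
  ((List.range t).flatMap fun i => List.replicate (4 * b i j) (2 * (m + 1) + i)) ++
    ([j + 1, m + 1 + (j + 1)] ++ (List.replicate (β - 2 * rowSum t b j - 1) 0 ++
      List.replicate (β - 2 * rowSum t b j - 1) (m + 1)))

/-- Out-neighbours. -/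
def out (v : ℕ) : List ℕ :=
  if v < m then hub t m β b v else if v < m + 1 then base m β
  else if v < 2 * m + 1 then hub t m β b (v - (m + 1)) else base m β

/-- Number of vertices. -/
def num : ℕ := (m + 1) + (m + 1) + t

/-- The weights. -/
def wt (v : ℕ) : ℕ :=
  if v < m + 1 then β ^ (m - v) else if v < 2 * (m + 1) then β ^ (m - (v - (m + 1)))
  else ∑ j ∈ range m, 4 * b (v - 2 * (m + 1)) j * β ^ (m - 1 - j)

variable {t m β b}

lemma out_hub1 {j : ℕ} (hj : j < m) : out t m β b j = hub t m β b j := by
  simp [out, hj]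

lemma out_last1 : out t m β b m = base m β := by
  simp [out]

lemma out_hub2 {j : ℕ} (hj : j < m) : out t m β b (m + 1 + j) = hub t m β b j := by
  unfold out
  rw [if_neg (by omega), if_neg (by omega), if_pos (by omega)]
  congr 1; omega

lemma out_last2 : out t m β b (m + 1 + m) = base m β := by
  unfold out
  rw [if_neg (by omega), if_neg (by omega), if_neg (by omega)]

lemma out_item (i : ℕ) : out t m β b (m + 1 + (m + 1) + i) = base m β := by
  unfold out
  rw [if_neg (by omega), if_neg (by omega), if_neg (by omega)]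

lemma wt_hub1 {j : ℕ} (hj : j < m + 1) : wt m β b j = β ^ (m - j) := by
  simp [wt, hj]

lemma wt_hub2 {j : ℕ} (hj : j < m + 1) : wt m β b (m + 1 + j) = β ^ (m - j) := by
  unfold wt
  rw [if_neg (by omega), if_pos (by omega)]
  congr 2; omega

lemma wt_item (i : ℕ) : wt m β b (m + 1 + (m + 1) + i) =
    ∑ j ∈ range m, 4 * b i j * β ^ (m - 1 - j) := by
  unfold wt
  rw [if_neg (by omega), if_neg (by omega)]
  have : m + 1 + (m + 1) + i - 2 * (m + 1) = i := by omega
  rw [this]

lemma rowSum_eq (j : ℕ) : rowSum t b j = ∑ i ∈ range t, b i j := sum_map_range _ _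

lemma sum_map_base (g : ℕ → ℕ) : ((base m β).map g).sum = β * (g 0 + g (m + 1)) := by
  simp [base, List.map_append, List.sum_append]; ring

lemma sum_map_flatMap (g : ℕ → ℕ) (t : ℕ) (c : ℕ → ℕ) (e : ℕ → ℕ) :
    (((List.range t).flatMap fun i => List.replicate (c i) (e i)).map g).sum =
      ∑ i ∈ range t, c i * g (e i) := by
  induction t with
  | zero => simp
  | succ t ih =>
    rw [List.range_succ, List.flatMap_append, List.map_append, List.sum_append, ih,
      Finset.sum_range_succ]
    simp

lemma sum_map_hub (g : ℕ → ℕ) (j : ℕ) : ((hub t m β b j).map g).sum =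
    ∑ i ∈ range t, 4 * b i j * g (m + 1 + (m + 1) + i) + (g (j + 1) + g (m + 1 + (j + 1))) +
      (β - 2 * rowSum t b j - 1) * (g 0 + g (m + 1)) := by
  unfold hub
  rw [List.map_append, List.sum_append, sum_map_flatMap, List.map_append, List.sum_append,
    List.map_append, List.sum_append]
  have h2 : ∀ i, 2 * (m + 1) + i = m + 1 + (m + 1) + i := fun i => by omega
  simp only [h2]
  simp
  ring

lemma sum_range_three (f : ℕ → ℕ) : ∑ v ∈ range (num t m), f v =
    ∑ j ∈ range (m + 1), (f j + f (m + 1 + j)) + ∑ i ∈ range t, f (m + 1 + (m + 1) + i) := by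
  unfold num
  rw [Finset.sum_range_add, Finset.sum_range_add, Finset.sum_add_distrib]

lemma sum_range_three_int (f : ℕ → ℤ) : ∑ v ∈ range (num t m), f v =
    ∑ j ∈ range (m + 1), (f j + f (m + 1 + j)) + ∑ i ∈ range t, f (m + 1 + (m + 1) + i) := by
  unfold num
  rw [Finset.sum_range_add, Finset.sum_range_add, Finset.sum_add_distrib]

lemma telescope (c : ℕ) : ∀ m : ℕ, ∑ j ∈ range m, (c + 1) ^ (m - j) * c + (c + 1) =
    (c + 1) ^ (m + 1)
  | 0 => by simp
  | m + 1 => by
    rw [Finset.sum_range_succ']
    have h := telescope c m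
    have h1 : ∀ j, m + 1 - (j + 1) = m - j := fun j => by omega
    simp only [h1, Nat.sub_zero]
    have h2 : (c + 1) ^ (m + 1 + 1) = (c + 1) ^ (m + 1) * c + (c + 1) ^ (m + 1) := by ring
    omega

/-- The weights form a left eigenvector. -/
lemma eigen (hβ : ∀ j < m, 2 * rowSum t b j + 1 ≤ β) (hβ0 : 0 < β) (g : ℕ → ℕ) :
    ∑ v ∈ range (num t m), wt m β b v * ((out t m β b v).map g).sum =
      2 * β * ∑ v ∈ range (num t m), wt m β b v * g v := by
  rw [sum_range_three, sum_range_three]
  -- rewrite the sums over the levels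
  have hL1 : ∑ j ∈ range (m + 1), (wt m β b j * ((out t m β b j).map g).sum +
      wt m β b (m + 1 + j) * ((out t m β b (m + 1 + j)).map g).sum) =
      2 * ∑ j ∈ range m, β ^ (m - j) * ((hub t m β b j).map g).sum +
        2 * (β * (g 0 + g (m + 1))) := by
    rw [Finset.sum_range_succ, out_last1, out_last2, sum_map_base, wt_hub1 (Nat.lt_succ_self m),
      wt_hub2 (Nat.lt_succ_self m), Nat.sub_self, pow_zero]
    have : ∑ j ∈ range m, (wt m β b j * ((out t m β b j).map g).sum +
        wt m β b (m + 1 + j) * ((out t m β b (m + 1 + j)).map g).sum) =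
        2 * ∑ j ∈ range m, β ^ (m - j) * ((hub t m β b j).map g).sum := by
      rw [Finset.mul_sum]
      refine Finset.sum_congr rfl fun j hj => ?_
      rw [Finset.mem_range] at hj
      rw [out_hub1 hj, out_hub2 hj, wt_hub1 (by omega), wt_hub2 (by omega)]
      ring
    rw [this]; ring
  have hL2 : ∑ i ∈ range t, wt m β b (m + 1 + (m + 1) + i) *
      ((out t m β b (m + 1 + (m + 1) + i)).map g).sum =
      (∑ j ∈ range m, β ^ (m - j) * (4 * rowSum t b j)) * (g 0 + g (m + 1)) := by
    have h1 : ∀ i ∈ range t, wt m β b (m + 1 + (m + 1) + i) *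
        ((out t m β b (m + 1 + (m + 1) + i)).map g).sum =
        (∑ j ∈ range m, 4 * b i j * β ^ (m - j)) * (g 0 + g (m + 1)) := by
      intro i _
      rw [out_item, sum_map_base, wt_item, ← mul_assoc, Finset.sum_mul]
      congr 1
      refine Finset.sum_congr rfl fun j hj => ?_
      rw [Finset.mem_range] at hj
      have : m - j = m - 1 - j + 1 := by omega
      rw [this, pow_succ]; ring
    rw [Finset.sum_congr rfl h1, ← Finset.sum_mul, Finset.sum_comm]
    congr 1
    refine Finset.sum_congr rfl fun j _ => ?_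
    rw [rowSum_eq, Finset.mul_sum, Finset.mul_sum]
    exact Finset.sum_congr rfl fun i _ => by ring
  have hR1 : ∑ j ∈ range (m + 1), (wt m β b j * g j + wt m β b (m + 1 + j) * g (m + 1 + j)) =
      β ^ m * (g 0 + g (m + 1)) +
        ∑ j ∈ range m, β ^ (m - 1 - j) * (g (j + 1) + g (m + 1 + (j + 1))) := by
    rw [Finset.sum_range_succ', add_comm]
    congr 1
    · rw [wt_hub1 (by omega), wt_hub2 (by omega), Nat.sub_zero, Nat.add_zero]; ring
    · refine Finset.sum_congr rfl fun j hj => ?_
      rw [Finset.mem_range] at hj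
      rw [wt_hub1 (by omega), wt_hub2 (by omega)]
      have : m - (j + 1) = m - 1 - j := by omega
      rw [this]; ring
  have hR2 : ∑ i ∈ range t, wt m β b (m + 1 + (m + 1) + i) * g (m + 1 + (m + 1) + i) =
      ∑ j ∈ range m, β ^ (m - 1 - j) * ∑ i ∈ range t, 4 * b i j * g (m + 1 + (m + 1) + i) := by
    simp only [wt_item, Finset.sum_mul, Finset.mul_sum]
    rw [Finset.sum_comm]
    refine Finset.sum_congr rfl fun j _ => Finset.sum_congr rfl fun i _ => by ring
  rw [hL1, hL2, hR1, hR2]
  obtain ⟨c, hc⟩ : ∃ c, β = c + 1 := ⟨β - 1, by omega⟩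
  have htel := telescope c m
  rw [← hc] at htel
  have hcoef : ∀ j ∈ range m, (β - 2 * rowSum t b j - 1) + 2 * rowSum t b j = c := by
    intro j hj
    have := hβ j (Finset.mem_range.1 hj)
    omega
  have hshift : ∀ f : ℕ → ℕ, β * ∑ j ∈ range m, β ^ (m - 1 - j) * f j =
      ∑ j ∈ range m, β ^ (m - j) * f j := by
    intro f
    rw [Finset.mul_sum]
    refine Finset.sum_congr rfl fun j hj => ?_
    rw [Finset.mem_range] at hj
    have : m - j = m - 1 - j + 1 := by omega
    rw [this, pow_succ]; ring
  have hH := hshift fun j => g (j + 1) + g (m + 1 + (j + 1))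
  have hI := hshift fun j => ∑ i ∈ range t, 4 * b i j * g (m + 1 + (m + 1) + i)
  have hsum : ∑ j ∈ range m, β ^ (m - j) * ((hub t m β b j).map g).sum =
      ∑ j ∈ range m, β ^ (m - j) * ∑ i ∈ range t, 4 * b i j * g (m + 1 + (m + 1) + i) +
      ∑ j ∈ range m, β ^ (m - j) * (g (j + 1) + g (m + 1 + (j + 1))) +
      (∑ j ∈ range m, β ^ (m - j) * (β - 2 * rowSum t b j - 1)) * (g 0 + g (m + 1)) := by
    rw [Finset.sum_mul, ← Finset.sum_add_distrib, ← Finset.sum_add_distrib]
    refine Finset.sum_congr rfl fun j _ => ?_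
    rw [sum_map_hub]; ring
  have hcs : ∑ j ∈ range m, β ^ (m - j) * (β - 2 * rowSum t b j - 1) * 2 +
      ∑ j ∈ range m, β ^ (m - j) * (4 * rowSum t b j) = 2 * ∑ j ∈ range m, β ^ (m - j) * c := by
    rw [Finset.mul_sum, ← Finset.sum_add_distrib]
    refine Finset.sum_congr rfl fun j hj => ?_
    have h := hcoef j hj
    calc β ^ (m - j) * (β - 2 * rowSum t b j - 1) * 2 + β ^ (m - j) * (4 * rowSum t b j)
        = 2 * (β ^ (m - j) * ((β - 2 * rowSum t b j - 1) + 2 * rowSum t b j)) := by ring
      _ = _ := by rw [h]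
  rw [← Finset.sum_mul] at hcs
  rw [hsum]
  have hfin : 2 * β * (β ^ m * (g 0 + g (m + 1)) +
        ∑ j ∈ range m, β ^ (m - 1 - j) * (g (j + 1) + g (m + 1 + (j + 1))) +
        ∑ j ∈ range m, β ^ (m - 1 - j) * ∑ i ∈ range t, 4 * b i j * g (m + 1 + (m + 1) + i)) =
      2 * (β ^ (m + 1) * (g 0 + g (m + 1))) +
        2 * (β * ∑ j ∈ range m, β ^ (m - 1 - j) * (g (j + 1) + g (m + 1 + (j + 1)))) +
        2 * (β * ∑ j ∈ range m, β ^ (m - 1 - j) *
          ∑ i ∈ range t, 4 * b i j * g (m + 1 + (m + 1) + i)) := by ring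
  rw [hfin, hH, hI, ← htel]
  set SI := ∑ j ∈ range m, β ^ (m - j) * ∑ i ∈ range t, 4 * b i j * g (m + 1 + (m + 1) + i)
  set SH := ∑ j ∈ range m, β ^ (m - j) * (g (j + 1) + g (m + 1 + (j + 1)))
  set SC := ∑ j ∈ range m, β ^ (m - j) * (β - 2 * rowSum t b j - 1)
  set SR := ∑ j ∈ range m, β ^ (m - j) * (4 * rowSum t b j)
  set Sc := ∑ j ∈ range m, β ^ (m - j) * c
  set G := g 0 + g (m + 1)
  calc 2 * (SI + SH + SC * G) + 2 * (β * G) + SR * G
      = 2 * SI + 2 * SH + (SC * 2 + SR) * G + 2 * (β * G) := by ring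
    _ = 2 * SI + 2 * SH + (2 * Sc) * G + 2 * (β * G) := by rw [hcs]
    _ = _ := by ring

lemma total (hβ : ∀ j < m, 4 * rowSum t b j + 3 ≤ β) (hβ0 : 0 < β) :
    ∑ v ∈ range (num t m), wt m β b v < 3 * wt m β b 0 := by
  rw [sum_range_three]
  have h0 : wt m β b 0 = β ^ m := by rw [wt_hub1 (by omega), Nat.sub_zero]
  have h1 : ∑ j ∈ range (m + 1), (wt m β b j + wt m β b (m + 1 + j)) =
      2 * β ^ m + ∑ j ∈ range m, β ^ (m - 1 - j) * 2 := by
    rw [Finset.sum_range_succ', add_comm]
    congr 1
    · rw [wt_hub1 (by omega), wt_hub2 (by omega), Nat.sub_zero]; ring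
    · refine Finset.sum_congr rfl fun j hj => ?_
      rw [Finset.mem_range] at hj
      rw [wt_hub1 (by omega), wt_hub2 (by omega)]
      have : m - (j + 1) = m - 1 - j := by omega
      rw [this]; ring
  have h2 : ∑ i ∈ range t, wt m β b (m + 1 + (m + 1) + i) =
      ∑ j ∈ range m, β ^ (m - 1 - j) * (4 * rowSum t b j) := by
    simp only [wt_item]
    rw [Finset.sum_comm]
    refine Finset.sum_congr rfl fun j _ => ?_
    rw [rowSum_eq, Finset.mul_sum, Finset.mul_sum]
    exact Finset.sum_congr rfl fun i _ => by ring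
  have h3 : ∑ j ∈ range m, β ^ (m - 1 - j) * 2 + ∑ j ∈ range m, β ^ (m - 1 - j) *
      (4 * rowSum t b j) ≤ ∑ j ∈ range m, β ^ (m - 1 - j) * (β - 1) := by
    rw [← Finset.sum_add_distrib]
    refine Finset.sum_le_sum fun j hj => ?_
    have := hβ j (Finset.mem_range.1 hj)
    rw [← mul_add]
    exact Nat.mul_le_mul_left _ (by omega)
  have h4 : ∑ j ∈ range m, β ^ (m - 1 - j) * (β - 1) < β ^ m := by
    obtain ⟨c, rfl⟩ : ∃ c, β = c + 1 := ⟨β - 1, by omega⟩
    have htel := telescope c m
    have h5 : ∑ j ∈ range m, (c + 1) ^ (m - j) * c =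
        (c + 1) * ∑ j ∈ range m, (c + 1) ^ (m - 1 - j) * (c + 1 - 1) := by
      rw [Finset.mul_sum]
      refine Finset.sum_congr rfl fun j hj => ?_
      rw [Finset.mem_range] at hj
      have : m - j = m - 1 - j + 1 := by omega
      rw [this, pow_succ, Nat.add_sub_cancel]; ring
    rw [h5, pow_succ] at htel
    have h6 : (c + 1) * (∑ j ∈ range m, (c + 1) ^ (m - 1 - j) * (c + 1 - 1) + 1) =
        (c + 1) * (c + 1) ^ m := by rw [mul_add, mul_one, htel]; ring
    have := Nat.eq_of_mul_eq_mul_left (Nat.succ_pos c) h6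
    omega
  rw [h1, h2, h0]
  omega

/-- Digits with respect to a large base are unique. -/
lemma digits (β : ℕ) (hβ : 0 < β) (d : ℕ → ℤ) : ∀ m : ℕ, (∀ j < m, |d (j + 1)| < β) →
    ∑ j ∈ range (m + 1), (β : ℤ) ^ (m - j) * d j = 0 → ∀ j < m + 1, d j = 0
  | 0, _, h => by
    intro j hj
    have : j = 0 := by omega
    subst this
    simpa using h
  | m + 1, hd, h => by
    rw [Finset.sum_range_succ, Nat.sub_self, pow_zero, one_mul] at h
    have h1 : ∑ j ∈ range (m + 1), (β : ℤ) ^ (m + 1 - j) * d j =
        β * ∑ j ∈ range (m + 1), (β : ℤ) ^ (m - j) * d j := by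
      rw [Finset.mul_sum]
      refine Finset.sum_congr rfl fun j hj => ?_
      rw [Finset.mem_range] at hj
      have : m + 1 - j = m - j + 1 := by omega
      rw [this, pow_succ]; ring
    rw [h1] at h
    have hdvd : (β : ℤ) ∣ d (m + 1) := by
      have : d (m + 1) = β * -(∑ j ∈ range (m + 1), (β : ℤ) ^ (m - j) * d j) := by linarith
      exact ⟨_, this⟩
    have hz : d (m + 1) = 0 := Int.eq_zero_of_abs_lt_dvd hdvd (hd m (Nat.lt_succ_self m))
    rw [hz, add_zero] at h
    have hβ' : (β : ℤ) ≠ 0 := by exact_mod_cast hβ.ne'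
    have h2 := (mul_eq_zero.1 h).resolve_left hβ'
    have ih := digits β hβ d m (fun j hj => hd j (by omega)) h2
    intro j hj
    by_cases hjm : j = m + 1
    · rw [hjm]; exact hz
    · exact ih j (by omega)

/-- A balanced choice of signs for the rows of the matrix. -/
def Balanced (t m : ℕ) (b : ℕ → ℕ → ℕ) : Prop :=
  ∃ s : ℕ → Bool, ∀ j < m, 2 * ∑ i ∈ range t, (if s i then b i j else 0) = ∑ i ∈ range t, b i j

/-- A partition into two parts of equal weight yields a balanced choice of signs. -/
lemma balanced_of_set (hβ : ∀ j < m, 4 * rowSum t b j + 3 ≤ β) (hβ0 : 0 < β) (K : ℕ → Bool)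
    (hK : ∑ v ∈ range (num t m), (if K v then (1 : ℤ) else -1) * wt m β b v = 0) :
    Balanced t m b := by
  set s : ℕ → ℤ := fun v => if K v then (1 : ℤ) else -1 with hs
  have hs1 : ∀ v, s v = 1 ∨ s v = -1 := by
    intro v
    simp only [hs]
    cases K v <;> simp
  rw [sum_range_three_int] at hK
  let I : ℕ → ℤ := fun j => ∑ i ∈ range t, s (m + 1 + (m + 1) + i) * b i j
  let d : ℕ → ℤ := fun j => match j with
    | 0 => s 0 + s (m + 1)
    | j + 1 => (s (j + 1) + s (m + 1 + (j + 1))) + 4 * I j
  have hsum : ∑ j ∈ range (m + 1), (β : ℤ) ^ (m - j) * d j = 0 := by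
    rw [← hK, Finset.sum_range_succ' (fun j => (β : ℤ) ^ (m - j) * d j),
      Finset.sum_range_succ' (fun j => s j * (wt m β b j : ℤ) + s (m + 1 + j) *
        (wt m β b (m + 1 + j) : ℤ))]
    have h0 : (β : ℤ) ^ (m - 0) * d 0 = s 0 * (wt m β b 0 : ℤ) + s (m + 1 + 0) *
        (wt m β b (m + 1 + 0) : ℤ) := by
      rw [wt_hub1 (by omega), wt_hub2 (by omega)]
      simp only [d, Nat.sub_zero, Nat.add_zero]
      push_cast; ring
    rw [h0]
    have h1 : ∑ j ∈ range m, (β : ℤ) ^ (m - (j + 1)) * d (j + 1) =
        ∑ j ∈ range m, (s (j + 1) * (wt m β b (j + 1) : ℤ) + s (m + 1 + (j + 1)) *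
          (wt m β b (m + 1 + (j + 1)) : ℤ)) +
        ∑ i ∈ range t, s (m + 1 + (m + 1) + i) * (wt m β b (m + 1 + (m + 1) + i) : ℤ) := by
      have h2 : ∑ i ∈ range t, s (m + 1 + (m + 1) + i) *
          (wt m β b (m + 1 + (m + 1) + i) : ℤ) =
          ∑ j ∈ range m, (β : ℤ) ^ (m - (j + 1)) * (4 * I j) := by
        simp only [wt_item, I]
        push_cast
        simp only [Finset.mul_sum]
        rw [Finset.sum_comm]
        refine Finset.sum_congr rfl fun j _ => Finset.sum_congr rfl fun i _ => ?_
        have : m - (j + 1) = m - 1 - j := by omega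
        rw [this]; ring
      rw [h2, ← Finset.sum_add_distrib]
      refine Finset.sum_congr rfl fun j hj => ?_
      rw [Finset.mem_range] at hj
      rw [wt_hub1 (by omega), wt_hub2 (by omega)]
      simp only [d]
      push_cast; ring
    rw [h1]; ring
  have hIle : ∀ j, |I j| ≤ rowSum t b j := by
    intro j
    simp only [I]
    refine (Finset.abs_sum_le_sum_abs _ _).trans ?_
    rw [rowSum_eq]
    push_cast
    refine Finset.sum_le_sum fun i _ => ?_
    rw [abs_mul]
    rcases hs1 (m + 1 + (m + 1) + i) with h | h <;> rw [h] <;> simp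
  have hd := digits β hβ0 d m (fun j hj => by
    have h1 := hβ j hj
    have h2 := abs_le.1 (hIle j)
    simp only [d]
    rw [abs_lt]
    rcases hs1 (j + 1) with h | h <;> rcases hs1 (m + 1 + (j + 1)) with h' | h' <;>
      rw [h, h'] <;> constructor <;> omega) hsum
  refine ⟨fun i => K (m + 1 + (m + 1) + i), fun j hj => ?_⟩
  have h1 := hd (j + 1) (by omega)
  simp only [d] at h1
  have h2 : I j = 0 := by
    rcases hs1 (j + 1) with h | h <;> rcases hs1 (m + 1 + (j + 1)) with h' | h' <;>
      rw [h, h'] at h1 <;> omega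
  have h3 : I j = 2 * (∑ i ∈ range t, (if K (m + 1 + (m + 1) + i) then (b i j : ℤ) else 0)) -
      ∑ i ∈ range t, (b i j : ℤ) := by
    simp only [I]
    rw [Finset.mul_sum, ← Finset.sum_sub_distrib]
    refine Finset.sum_congr rfl fun i _ => ?_
    simp only [hs]
    cases K (m + 1 + (m + 1) + i) <;> simp <;> ring
  rw [h2] at h3
  have h4 : (2 * (∑ i ∈ range t, (if K (m + 1 + (m + 1) + i) then b i j else 0) : ℕ) : ℤ) =
      ((∑ i ∈ range t, b i j : ℕ) : ℤ) := by
    push_cast
    linarith
  exact_mod_cast h4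

lemma length_hub {j : ℕ} (hβ : 2 * rowSum t b j + 1 ≤ β) : (hub t m β b j).length = 2 * β := by
  have h := sum_map_hub (t := t) (m := m) (β := β) (b := b) (fun _ => 1) j
  rw [List.map_const', List.sum_replicate] at h
  simp only [smul_eq_mul, mul_one, ← Finset.mul_sum] at h
  rw [h, ← rowSum_eq]
  omega

lemma length_base : (base m β).length = 2 * β := by
  simp [base]; ring

lemma out_length (hβ : ∀ j < m, 2 * rowSum t b j + 1 ≤ β) (v : ℕ) :
    (out t m β b v).length = 2 * β := by
  unfold out
  split_ifs with h1 h2 h3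
  · exact length_hub (hβ _ h1)
  · exact length_base
  · exact length_hub (hβ _ (by omega))
  · exact length_base

lemma base_lt {x : ℕ} (hx : x ∈ base m β) : x < num t m := by
  unfold base at hx
  unfold num
  rw [List.mem_append, List.mem_replicate, List.mem_replicate] at hx
  omega

lemma hub_lt {j : ℕ} (hj : j < m) {x : ℕ} (hx : x ∈ hub t m β b j) : x < num t m := by
  unfold hub at hx
  unfold num
  simp only [List.mem_append, List.mem_flatMap, List.mem_range, List.mem_replicate, List.mem_cons,
    List.not_mem_nil, or_false] at hx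
  omega

lemma out_lt (v : ℕ) {x : ℕ} (hx : x ∈ out t m β b v) : x < num t m := by
  unfold out at hx
  split_ifs at hx with h1 h2 h3
  · exact hub_lt h1 hx
  · exact base_lt hx
  · exact hub_lt (by omega) hx
  · exact base_lt hx

lemma mem_out (hβ : ∀ j < m, 2 * rowSum t b j + 2 ≤ β) (hβ0 : 0 < β) (v : ℕ) :
    0 ∈ out t m β b v ∧ m + 1 ∈ out t m β b v := by
  have h1 : 0 ∈ base m β ∧ m + 1 ∈ base m β := by
    unfold base
    exact ⟨List.mem_append_left _ (List.mem_replicate.2 ⟨by omega, rfl⟩),
      List.mem_append_right _ (List.mem_replicate.2 ⟨by omega, rfl⟩)⟩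
  have h2 : ∀ j < m, 0 ∈ hub t m β b j ∧ m + 1 ∈ hub t m β b j := by
    intro j hj
    have := hβ j hj
    unfold hub
    exact ⟨List.mem_append_right _ (List.mem_append_right _
      (List.mem_append_left _ (List.mem_replicate.2 ⟨by omega, rfl⟩))),
      List.mem_append_right _ (List.mem_append_right _
      (List.mem_append_right _ (List.mem_replicate.2 ⟨by omega, rfl⟩)))⟩
  unfold out
  split_ifs with h3 h4 h5
  · exact h2 _ h3
  · exact h1
  · exact h2 _ (by omega)
  · exact h1

/-- The side of a vertex, for a choice of signs. -/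
def side (m : ℕ) (s : ℕ → Bool) (v : ℕ) : Bool :=
  if v < m + 1 then true else if v < 2 * (m + 1) then false else s (v - 2 * (m + 1))

lemma side_count {s : ℕ → Bool} (hβ : ∀ j < m, 2 * rowSum t b j + 1 ≤ β)
    (hs : ∀ j < m, 2 * ∑ i ∈ range t, (if s i then b i j else 0) = ∑ i ∈ range t, b i j)
    (v : ℕ) : ((out t m β b v).map fun x => if side m s x then 1 else 0).sum = β := by
  have h0 : side m s 0 = true := by simp [side]
  have h1 : side m s (m + 1) = false := by
    unfold side; rw [if_neg (by omega), if_pos (by omega)]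
  have hb : ((base m β).map fun x => if side m s x then 1 else 0).sum = β := by
    rw [sum_map_base, h0, h1]; simp
  have hh : ∀ j < m, ((hub t m β b j).map fun x => if side m s x then 1 else 0).sum = β := by
    intro j hj
    rw [sum_map_hub, h0, h1]
    have h2 : side m s (j + 1) = true := by unfold side; rw [if_pos (by omega)]
    have h3 : side m s (m + 1 + (j + 1)) = false := by
      unfold side; rw [if_neg (by omega), if_pos (by omega)]
    have h4 : ∀ i, side m s (m + 1 + (m + 1) + i) = s i := by
      intro i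
      unfold side; rw [if_neg (by omega), if_neg (by omega)]
      congr 1; omega
    rw [h2, h3]
    simp only [h4]
    have h5 : ∑ i ∈ range t, 4 * b i j * (if s i = true then 1 else 0) =
        4 * ∑ i ∈ range t, (if s i = true then b i j else 0) := by
      rw [Finset.mul_sum]
      refine Finset.sum_congr rfl fun i _ => ?_
      cases s i <;> simp
    have h6 := hs j hj
    have h7 := hβ j hj
    rw [rowSum_eq] at h7 ⊢
    rw [h5]
    simp
    omega
  unfold out
  split_ifs with h3 h4 h5
  · exact hh _ h3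
  · exact hb
  · exact hh _ (by omega)
  · exact hb

end graph

/-! ### Digraphs given by lists of out-neighbours -/

/-- The digraph with vertices `0, ..., n - 1` given by the lists of out-neighbours. -/
def headOf (n k : ℕ) (o : ℕ → List ℕ) (h : ∀ v < n, (o v).length = k ∧ ∀ x ∈ o v, x < n) :
    Fin n → Fin k → Fin n := fun v e =>
  ⟨(o v.1)[e.1]'(by rw [(h v v.2).1]; exact e.2), (h v v.2).2 _ (List.getElem_mem _)⟩

/-- Every colouring is synchronizing. -/
def TotSync {n k : ℕ} (head : Fin n → Fin k → Fin n) : Prop :=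
  ∀ σ : Fin n → Equiv.Perm (Fin k), IsSync (fun v a => head v (σ v a))

lemma sum_headOf {n k : ℕ} {o : ℕ → List ℕ} {h : ∀ v < n, (o v).length = k ∧ ∀ x ∈ o v, x < n}
    (v : Fin n) (g : ℕ → ℕ) : ∑ e, g (headOf n k o h v e).1 = ((o v.1).map g).sum := by
  have hlen := (h v v.2).1
  subst hlen
  rw [← List.sum_ofFn]
  congr 1
  apply List.ext_getElem
  · simp
  · intro i h1 h2
    simp [headOf]

/-- Two Boolean functions with fibers of the same size differ by a permutation. -/
lemma exists_perm {k : ℕ} (f g : Fin k → Bool)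
    (h : ∑ a, (if f a then 1 else 0) = ∑ a, (if g a then 1 else 0)) :
    ∃ σ : Equiv.Perm (Fin k), ∀ a, g (σ a) = f a := by
  have hcard : ∀ f : Fin k → Bool, Fintype.card {a // f a = true} =
      ∑ a, (if f a then 1 else 0) := by
    intro f
    rw [Fintype.card_subtype, Finset.card_filter]
  have hcard' : ∀ f : Fin k → Bool, Fintype.card {a // f a = false} =
      k - ∑ a, (if f a then 1 else 0) := by
    intro f
    have h1 := Fintype.card_subtype_compl (fun a => f a = true)
    simp only [Bool.not_eq_true, Fintype.card_fin] at h1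
    rw [h1, hcard]
  have hfib : ∀ c : Bool, Nonempty ({a // f a = c} ≃ {a // g a = c}) := by
    intro c
    rw [← Fintype.card_eq]
    cases c
    · rw [hcard', hcard', h]
    · rw [hcard, hcard, h]
  exact ⟨Equiv.ofFiberEquiv fun c => (hfib c).some, fun a => Equiv.ofFiberEquiv_map _ a⟩

section main

variable {t m β : ℕ} {b : ℕ → ℕ → ℕ}

lemma valid_out (hβ : ∀ j < m, 4 * rowSum t b j + 3 ≤ β) : ∀ v < num t m,
    (out t m β b v).length = 2 * β ∧ ∀ x ∈ out t m β b v, x < num t m := fun v _ =>
  ⟨out_length (fun j hj => by have := hβ j hj; omega) v, fun _ hx => out_lt v hx⟩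

/-- **The graph theorem.** -/
theorem totSync_iff (hβ : ∀ j < m, 4 * rowSum t b j + 3 ≤ β) (hβ0 : 0 < β) :
    TotSync (headOf (num t m) (2 * β) (out t m β b) (valid_out hβ)) ↔ ¬ Balanced t m b := by
  constructor
  · rintro hT ⟨s, hs⟩
    -- the colouring
    have hcol : ∀ v : Fin (num t m), ∃ σ : Equiv.Perm (Fin (2 * β)), ∀ a : Fin (2 * β),
        side m s (headOf (num t m) (2 * β) (out t m β b) (valid_out hβ) v (σ a)).1 =
          xor (side m s v.1) (decide (β ≤ a.1)) := by
      intro v
      refine exists_perm (fun a : Fin (2 * β) => xor (side m s v.1) (decide (β ≤ a.1)))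
        (fun e => side m s (headOf (num t m) (2 * β) (out t m β b) (valid_out hβ) v e).1) ?_
      have h1 := sum_headOf (h := valid_out (t := t) (b := b) hβ) v
        (fun x => if side m s x then 1 else 0)
      rw [h1, side_count (fun j hj => by have := hβ j hj; omega) hs]
      rw [Fin.sum_univ_eq_sum_range (fun a => if xor (side m s v.1) (decide (β ≤ a)) = true
        then 1 else 0) (2 * β), two_mul, Finset.sum_range_add]
      have h2 : ∑ x ∈ range β, (if xor (side m s v.1) (decide (β ≤ x)) = true then 1 else 0) =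
          if side m s v.1 then β else 0 := by
        have : ∀ x ∈ range β, (if xor (side m s v.1) (decide (β ≤ x)) = true then 1 else 0) =
            if side m s v.1 then 1 else 0 := by
          intro x hx
          rw [Finset.mem_range] at hx
          rw [decide_eq_false (by omega), Bool.xor_false]
        rw [Finset.sum_congr rfl this]
        cases side m s v.1 <;> simp
      have h3 : ∑ x ∈ range β, (if xor (side m s v.1) (decide (β ≤ β + x)) = true then 1 else 0) =
          if side m s v.1 then 0 else β := by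
        have : ∀ x ∈ range β, (if xor (side m s v.1) (decide (β ≤ β + x)) = true then 1 else 0) =
            if side m s v.1 then 0 else 1 := by
          intro x _
          rw [decide_eq_true (by omega), Bool.xor_true]
          cases side m s v.1 <;> simp
        rw [Finset.sum_congr rfl this]
        cases side m s v.1 <;> simp
      rw [h2, h3]
      cases side m s v.1 <;> simp
    choose σ hσ using hcol
    obtain ⟨w, q, hw⟩ := hT σ
    -- the side of the state after a word
    have hside : ∀ (w : List (Fin (2 * β))) (u v : Fin (num t m)),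
        side m s u.1 ≠ side m s v.1 →
        run (fun v a => headOf (num t m) (2 * β) (out t m β b) (valid_out hβ) v (σ v a)) w u ≠
        run (fun v a => headOf (num t m) (2 * β) (out t m β b) (valid_out hβ) v (σ v a)) w v := by
      intro w
      induction w with
      | nil =>
        intro u v h1 h2
        have h3 : u = v := h2
        exact h1 (by rw [h3])
      | cons a w ih =>
        intro u v h1
        refine ih _ _ ?_
        rw [hσ, hσ]
        intro h2
        apply h1
        revert h2
        cases side m s u.1 <;> cases side m s v.1 <;> simp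
    refine hside w ⟨0, by unfold num; omega⟩ ⟨m + 1, by unfold num; omega⟩ ?_
      ((hw _).trans (hw _).symm)
    simp [side]
  · intro hB σ
    by_contra hns
    refine hB ?_
    have h0 : 0 < num t m := by unfold num; omega
    have h1 : m + 1 < num t m := by unfold num; omega
    let head := headOf (num t m) (2 * β) (out t m β b) (valid_out hβ)
    have hE : Eig (fun v a => head v (σ v a)) (fun v => wt m β b v.1) := by
      intro g
      let g' : ℕ → ℕ := fun v => if h : v < num t m then g ⟨v, h⟩ else 0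
      have hg' : ∀ v : Fin (num t m), g v = g' v.1 := by
        intro v
        simp [g']
      have h2 := eigen (t := t) (m := m) (β := β) (b := b)
        (fun j hj => by have := hβ j hj; omega) hβ0 g'
      rw [← Fin.sum_univ_eq_sum_range (fun v => wt m β b v * ((out t m β b v).map g').sum),
        ← Fin.sum_univ_eq_sum_range (fun v => wt m β b v * g' v)] at h2
      rw [Fintype.card_fin]
      simp only [hg']
      rw [← h2]
      refine Finset.sum_congr rfl fun v _ => ?_
      congr 1
      rw [← sum_headOf (h := valid_out (t := t) (b := b) hβ) v g']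
      exact Equiv.sum_comp (σ v) (fun e => g' (head v e).1)
    have hne : (⟨0, h0⟩ : Fin (num t m)) ≠ ⟨m + 1, h1⟩ := by
      intro h2
      have := congrArg Fin.val h2
      simp at this
    have hwe : wt m β b 0 = wt m β b (m + 1) := by
      rw [wt_hub1 (by omega)]
      have := wt_hub2 (m := m) (β := β) (b := b) (j := 0) (by omega)
      rw [Nat.add_zero] at this
      rw [this]
    have htot : ∑ v : Fin (num t m), wt m β b v.1 < 3 * wt m β b 0 := by
      rw [Fin.sum_univ_eq_sum_range (fun v => wt m β b v)]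
      exact total hβ hβ0
    have hreach : ∀ (u : Fin (num t m)) (x : ℕ) (hx : x < num t m), x ∈ out t m β b u.1 →
        ∃ a, head u (σ u a) = ⟨x, hx⟩ := by
      intro u x hx h2
      obtain ⟨i, hi, h3⟩ := List.mem_iff_getElem.1 h2
      have hlen := ((valid_out (t := t) (b := b) hβ) u.1 u.2).1
      refine ⟨(σ u).symm ⟨i, by rw [← hlen]; exact hi⟩, ?_⟩
      rw [Equiv.apply_symm_apply]
      exact Fin.ext h3
    have hmem := mem_out (t := t) (m := m) (β := β) (b := b)
        (fun j hj => by have := hβ j hj; omega) hβ0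
    obtain ⟨K, hK⟩ := exists_balanced (fun v a => head v (σ v a)) (fun v => wt m β b v.1) hE
      ⟨0, h0⟩ ⟨m + 1, h1⟩ hne hwe htot (fun u => hreach u 0 h0 (hmem u.1).1)
      (fun u => hreach u (m + 1) h1 (hmem u.1).2) hns
    -- the balanced set
    refine balanced_of_set hβ hβ0
      (fun v => if h : v < num t m then decide (⟨v, h⟩ ∈ K) else false) ?_
    rw [← Fin.sum_univ_eq_sum_range (fun v => (if (if h : v < num t m then
      decide ((⟨v, h⟩ : Fin (num t m)) ∈ K) else false) = true then (1 : ℤ) else -1) *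
      (wt m β b v : ℤ)) (num t m)]
    have h2 : ∀ v : Fin (num t m), (if (if h : v.1 < num t m then
        decide ((⟨v.1, h⟩ : Fin (num t m)) ∈ K) else false) = true then (1 : ℤ) else -1) *
        (wt m β b v.1 : ℤ) = (if v ∈ K then (wt m β b v.1 : ℤ) else 0) -
        (if v ∈ Kᶜ then (wt m β b v.1 : ℤ) else 0) := by
      intro v
      rw [dif_pos v.2]
      by_cases hv : v ∈ K
      · simp [hv]
      · simp [hv]
    rw [Finset.sum_congr rfl fun v _ => h2 v, Finset.sum_sub_distrib]
    simp only [Finset.sum_ite_mem, Finset.univ_inter]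
    have h3 : ((∑ v ∈ K, wt m β b v.1 : ℕ) : ℤ) = ((∑ v ∈ Kᶜ, wt m β b v.1 : ℕ) : ℤ) := by
      rw [hK]
    push_cast at h3
    rw [h3, sub_self]

end main

end Pool.Agent.Helper86.Sync
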