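import Mathlib
import Pool.Agent.Helper91.PolyTime.Reduction
import Pool.Agent.Helper91.PolyTime.Verifier

/-!
# Exact cover

Constraint satisfaction problems as exact cover problems; the constraint satisfaction problems of
the Cook-Levin theorem yield exact cover problems that can be computed in polynomial time.
-/

open Turing Function Computability
open Pool.Agent.Helper91.PolyTime Pool.Agent.Helper91.CookLevin Pool.Agent.Helper91.Triangle
open Pool.Agent.Helper91.Reduction

namespace Pool.Agent.Helper86.XC

/-- The exact cover problem: some of the sets in the list cover each of the elements exactly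
once. -/
def Cover {E : Type*} (sets : List (List E)) (elems : List E) : Prop :=
  ∃ c : ℕ → Bool, ∀ e ∈ elems, ∃ i : ℕ, (∃ h : i < sets.length, c i = true ∧ e ∈ sets[i]) ∧
    ∀ i', (∃ h : i' < sets.length, c i' = true ∧ e ∈ sets[i']) → i' = i

section csp

variable {κ ι D : Type*}

/-- The variables of a constraint. -/
def cvar (c : Con κ ι) (j : Fin 5) : ι :=
  match j with
  | 0 => c.2.1
  | 1 => c.2.2.1
  | 2 => c.2.2.2.1
  | 3 => c.2.2.2.2.1
  | 4 => c.2.2.2.2.2

/-- The entries of a tuple. -/
def fval (d : Five D) (j : Fin 5) : D :=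
  match j with
  | 0 => d.1
  | 1 => d.2.1
  | 2 => d.2.2.1
  | 3 => d.2.2.2.1
  | 4 => d.2.2.2.2

lemma fval_vals (α : ι → D) (c : Con κ ι) (j : Fin 5) : fval (vals α c) j = α (cvar c j) := by
  fin_cases j <;> rfl

lemma five_ext {d d' : Five D} (h : ∀ j, fval d j = fval d' j) : d = d' := by
  obtain ⟨a, b, c, e, f⟩ := d
  obtain ⟨a', b', c', e', f'⟩ := d'
  have h0 := h 0
  have h1 := h 1
  have h2 := h 2
  have h3 := h 3
  have h4 := h 4
  simp only [fval] at h0 h1 h2 h3 h4
  rw [h0, h1, h2, h3, h4]

/-- The elements to be covered: variables, constraints, and entries of constraints. -/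
abbrev El (κ ι D : Type*) : Type _ := ι ⊕ (Con κ ι ⊕ (Con κ ι × Fin 5 × D))

variable [DecidableEq ι] [DecidableEq D]

/-- The set of a value of a variable. -/
def setV (fd : List (Fin 5 × D)) (cs : List (Con κ ι)) (v : ι) (x : D) : List (El κ ι D) :=
  Sum.inl v :: cs.flatMap fun c => (fd.filter fun p => decide (cvar c p.1 = v) &&
    !(decide (p.2 = x))).map fun p => Sum.inr (Sum.inr (c, p.1, p.2))

/-- The set of a tuple of a constraint. -/
def setC (c : Con κ ι) (d : Five D) : List (El κ ι D) :=
  Sum.inr (Sum.inl c) :: [Sum.inr (Sum.inr (c, 0, fval d 0)), Sum.inr (Sum.inr (c, 1, fval d 1)),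
    Sum.inr (Sum.inr (c, 2, fval d 2)), Sum.inr (Sum.inr (c, 3, fval d 3)),
    Sum.inr (Sum.inr (c, 4, fval d 4))]

/-- The sets. -/
def sets (dd : List D) (fd : List (Fin 5 × D)) (allow : κ → List (Five D)) (vars : List ι)
    (cs : List (Con κ ι)) : List (List (El κ ι D)) :=
  (vars.flatMap fun v => dd.map fun x => setV fd cs v x) ++
    cs.flatMap fun c => (allow c.1).map fun d => setC c d

/-- The elements. -/
def elems (fd : List (Fin 5 × D)) (vars : List ι) (cs : List (Con κ ι)) : List (El κ ι D) :=
  vars.map Sum.inl ++ (cs.map (fun c => Sum.inr (Sum.inl c)) ++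
    cs.flatMap fun c => fd.map fun p => Sum.inr (Sum.inr (c, p.1, p.2)))

/-- The origins of the sets. -/
def origins (dd : List D) (allow : κ → List (Five D)) (vars : List ι)
    (cs : List (Con κ ι)) : List ((ι × D) ⊕ (Con κ ι × Five D)) :=
  (vars.flatMap fun v => dd.map fun x => Sum.inl (v, x)) ++
    cs.flatMap fun c => (allow c.1).map fun d => Sum.inr (c, d)

/-- The set of an origin. -/
def toSet (fd : List (Fin 5 × D)) (cs : List (Con κ ι)) :
    (ι × D) ⊕ (Con κ ι × Five D) → List (El κ ι D)
  | .inl p => setV fd cs p.1 p.2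
  | .inr p => setC p.1 p.2

lemma sets_eq (dd : List D) (fd : List (Fin 5 × D)) (allow : κ → List (Five D)) (vars : List ι)
    (cs : List (Con κ ι)) :
    sets dd fd allow vars cs = (origins dd allow vars cs).map (toSet fd cs) := by
  unfold sets origins
  rw [List.map_append, List.map_flatMap, List.map_flatMap]
  simp only [List.map_map]
  rfl

/-- The index version of a list of sets given by their origins. -/
lemma cover_iff {O E : Type*} (l : List O) (hl : l.Nodup) (f : O → List E) (el : List E) :
    Cover (l.map f) el ↔ ∃ p : O → Prop, ∀ e ∈ el, ∃ o ∈ l, p o ∧ e ∈ f o ∧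
      ∀ o' ∈ l, p o' → e ∈ f o' → o' = o := by
  classical
  constructor
  · rintro ⟨c, hc⟩
    refine ⟨fun o => ∃ (i : ℕ) (h : i < l.length), l[i] = o ∧ c i = true, fun e he => ?_⟩
    obtain ⟨i, ⟨hi, hci, hei⟩, huniq⟩ := hc e he
    have hi' : i < l.length := by simpa using hi
    refine ⟨l[i], List.getElem_mem _, ⟨i, hi', rfl, hci⟩, by simpa using hei, ?_⟩
    rintro o' ho' ⟨i', hi'', rfl, hc'⟩ he'
    have := huniq i' ⟨by simpa using hi'', hc', by simpa using he'⟩
    subst this
    rfl
  · rintro ⟨p, hp⟩
    refine ⟨fun i => if h : i < l.length then decide (p l[i]) else false, fun e he => ?_⟩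
    obtain ⟨o, ho, hpo, heo, huniq⟩ := hp e he
    obtain ⟨i, hi, rfl⟩ := List.mem_iff_getElem.1 ho
    refine ⟨i, ⟨by simpa using hi, by simp [hi, hpo], by simpa using heo⟩, ?_⟩
    rintro i' ⟨hi', hc', he'⟩
    have hi'' : i' < l.length := by simpa using hi'
    simp only [hi'', dite_true, decide_eq_true_eq] at hc'
    have := huniq _ (List.getElem_mem hi'') hc' (by simpa using he')
    exact (hl.getElem_inj_iff).1 this

lemma mem_setV {fd : List (Fin 5 × D)} {cs : List (Con κ ι)} {v : ι} {x : D} {e : El κ ι D} :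
    e ∈ setV fd cs v x ↔ e = Sum.inl v ∨ ∃ c ∈ cs, ∃ p ∈ fd, cvar c p.1 = v ∧ p.2 ≠ x ∧
      e = Sum.inr (Sum.inr (c, p.1, p.2)) := by
  simp only [setV, List.mem_cons, List.mem_flatMap, List.mem_map, List.mem_filter,
    Bool.and_eq_true, decide_eq_true_eq, Bool.not_eq_true', decide_eq_false_iff_not]
  constructor
  · rintro (h | ⟨c, hc, p, ⟨hp, h1, h2⟩, rfl⟩)
    · exact Or.inl h
    · exact Or.inr ⟨c, hc, p, hp, h1, h2, rfl⟩
  · rintro (h | ⟨c, hc, p, hp, h1, h2, rfl⟩)
    · exact Or.inl h
    · exact Or.inr ⟨c, hc, p, ⟨hp, h1, h2⟩, rfl⟩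

omit [DecidableEq ι] [DecidableEq D] in
lemma mem_setC {c : Con κ ι} {d : Five D} {e : El κ ι D} :
    e ∈ setC c d ↔ e = Sum.inr (Sum.inl c) ∨ ∃ j, e = Sum.inr (Sum.inr (c, j, fval d j)) := by
  simp only [setC, List.mem_cons, List.not_mem_nil, or_false]
  constructor
  · rintro (h | h | h | h | h | h)
    · exact Or.inl h
    · exact Or.inr ⟨_, h⟩
    · exact Or.inr ⟨_, h⟩
    · exact Or.inr ⟨_, h⟩
    · exact Or.inr ⟨_, h⟩
    · exact Or.inr ⟨_, h⟩
  · rintro (h | ⟨j, h⟩)
    · exact Or.inl h
    · fin_cases j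
      · exact Or.inr (Or.inl h)
      · exact Or.inr (Or.inr (Or.inl h))
      · exact Or.inr (Or.inr (Or.inr (Or.inl h)))
      · exact Or.inr (Or.inr (Or.inr (Or.inr (Or.inl h))))
      · exact Or.inr (Or.inr (Or.inr (Or.inr (Or.inr h))))

omit [DecidableEq ι] [DecidableEq D] in
lemma mem_origins {dd : List D} {allow : κ → List (Five D)} {vars : List ι}
    {cs : List (Con κ ι)} {o : (ι × D) ⊕ (Con κ ι × Five D)} :
    o ∈ origins dd allow vars cs ↔ (∃ v ∈ vars, ∃ x ∈ dd, o = Sum.inl (v, x)) ∨
      ∃ c ∈ cs, ∃ d ∈ allow c.1, o = Sum.inr (c, d) := by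
  simp only [origins, List.mem_append, List.mem_flatMap, List.mem_map]
  constructor
  · rintro (⟨v, hv, x, hx, rfl⟩ | ⟨c, hc, d, hd, rfl⟩)
    · exact Or.inl ⟨v, hv, x, hx, rfl⟩
    · exact Or.inr ⟨c, hc, d, hd, rfl⟩
  · rintro (⟨v, hv, x, hx, rfl⟩ | ⟨c, hc, d, hd, rfl⟩)
    · exact Or.inl ⟨v, hv, x, hx, rfl⟩
    · exact Or.inr ⟨c, hc, d, hd, rfl⟩

omit [DecidableEq ι] [DecidableEq D] in
lemma nodup_origins {dd : List D} {allow : κ → List (Five D)} {vars : List ι}
    {cs : List (Con κ ι)} (hdd : dd.Nodup) (hal : ∀ k, (allow k).Nodup) (hv : vars.Nodup)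
    (hcs : cs.Nodup) : (origins dd allow vars cs).Nodup := by
  unfold origins
  refine List.Nodup.append ?_ ?_ ?_
  · rw [List.nodup_flatMap]
    refine ⟨fun v _ => hdd.map fun x y h => ?_, hv.imp fun {v w} hvw => ?_⟩
    · simpa using h
    · intro o ho ho'
      simp only [List.mem_map] at ho ho'
      obtain ⟨x, _, rfl⟩ := ho
      obtain ⟨y, _, h⟩ := ho'
      simp only [Sum.inl.injEq, Prod.mk.injEq] at h
      exact hvw h.1.symm
  · rw [List.nodup_flatMap]
    refine ⟨fun v _ => (hal _).map fun x y h => ?_, hcs.imp fun {v w} hvw => ?_⟩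
    · simpa using h
    · intro o ho ho'
      simp only [List.mem_map] at ho ho'
      obtain ⟨x, _, rfl⟩ := ho
      obtain ⟨y, _, h⟩ := ho'
      simp only [Sum.inr.injEq, Prod.mk.injEq] at h
      exact hvw h.1.symm
  · intro o ho ho'
    simp only [List.mem_flatMap, List.mem_map] at ho ho'
    obtain ⟨v, _, x, _, rfl⟩ := ho
    obtain ⟨c, _, d, _, h⟩ := ho'
    simp at h

/-- **Exact cover and constraint satisfaction.** -/
theorem cover_csp {dd : List D} {fd : List (Fin 5 × D)} {allow : κ → List (Five D)}
    {vars : List ι} {cs : List (Con κ ι)} [Nonempty D] (hdd : dd.Nodup) (hdd' : ∀ x, x ∈ dd)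
    (hfd : ∀ p, p ∈ fd) (hal : ∀ k, (allow k).Nodup) (hv : vars.Nodup) (hcs : cs.Nodup)
    (hcv : ∀ c ∈ cs, ∀ j, cvar c j ∈ vars) :
    Cover (sets dd fd allow vars cs) (elems fd vars cs) ↔
      ∃ α : ι → D, ∀ c ∈ cs, vals α c ∈ allow c.1 := by
  classical
  rw [sets_eq, cover_iff _ (nodup_origins hdd hal hv hcs)]
  constructor
  · rintro ⟨p, hp⟩
    -- the assignment
    have hvar : ∀ v ∈ vars, ∃ x, p (Sum.inl (v, x)) ∧ ∀ y, p (Sum.inl (v, y)) → y = x := by
      intro v hv'
      obtain ⟨o, ho, hpo, heo, huniq⟩ := hp (Sum.inl v) (by simp [elems, hv'])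
      rw [mem_origins] at ho
      rcases ho with ⟨v', hv'', x, hx, rfl⟩ | ⟨c, hc, d, hd, rfl⟩
      · simp only [toSet] at heo
        rw [mem_setV] at heo
        rcases heo with heo | ⟨c, _, q, _, _, _, h⟩
        · simp only [Sum.inl.injEq] at heo
          subst heo
          refine ⟨x, hpo, fun y hy => ?_⟩
          have := huniq (Sum.inl (v, y)) (mem_origins.2 (Or.inl ⟨v, hv', y, hdd' y, rfl⟩)) hy
            (by simp only [toSet]; rw [mem_setV]; exact Or.inl rfl)
          simpa using this
        · simp at h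
      · simp only [toSet] at heo
        rw [mem_setC] at heo
        rcases heo with h | ⟨j, h⟩ <;> simp at h
    choose! α hα hα' using hvar
    refine ⟨α, fun c hc => ?_⟩
    -- the tuple of the constraint
    obtain ⟨o, ho, hpo, heo, huniq⟩ := hp (Sum.inr (Sum.inl c)) (by simp [elems, hc])
    rw [mem_origins] at ho
    rcases ho with ⟨v', hv'', x, hx, rfl⟩ | ⟨c', hc', d, hd, rfl⟩
    · simp only [toSet] at heo
      rw [mem_setV] at heo
      rcases heo with heo | ⟨c, _, q, _, _, _, h⟩
      · simp at heo
      · simp at h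
    · simp only [toSet] at heo
      rw [mem_setC] at heo
      rcases heo with h | ⟨j, h⟩
      swap
      · simp at h
      simp only [Sum.inr.injEq, Sum.inl.injEq] at h
      subst h
      have hdv : d = vals α c := by
        refine five_ext fun j => ?_
        rw [fval_vals]
        -- the entry
        obtain ⟨o, ho, hpo2, heo2, huniq2⟩ := hp (Sum.inr (Sum.inr (c, j, α (cvar c j)))) (by
          simp only [elems, List.mem_append, List.mem_flatMap, List.mem_map]
          exact Or.inr (Or.inr ⟨c, hc, (j, α (cvar c j)), hfd _, rfl⟩))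
        rw [mem_origins] at ho
        rcases ho with ⟨v', hv'', x, hx, rfl⟩ | ⟨c', hc', d', hd', rfl⟩
        · simp only [toSet] at heo2
          rw [mem_setV] at heo2
          rcases heo2 with h | ⟨c'', _, q, _, h1, h2, h⟩
          · simp at h
          · simp only [Sum.inr.injEq, Prod.mk.injEq] at h
            obtain ⟨rfl, hq1, hq2⟩ := h
            subst h1
            have hx := hα' (cvar c q.1) (hcv c hc _) x hpo2
            rw [← hq1] at hx
            exact absurd (hq2.symm.trans hx.symm) h2
        · simp only [toSet] at heo2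
          rw [mem_setC] at heo2
          rcases heo2 with h | ⟨j', h⟩
          · simp at h
          · simp only [Sum.inr.injEq, Prod.mk.injEq] at h
            obtain ⟨rfl, rfl, h3⟩ := h
            have h4 := huniq (Sum.inr (c, d')) (mem_origins.2 (Or.inr ⟨c, hc, d', hd', rfl⟩)) hpo2
              (by simp only [toSet]; rw [mem_setC]; exact Or.inl rfl)
            simp only [Sum.inr.injEq, Prod.mk.injEq, true_and] at h4
            rw [← h4]; exact h3.symm
      rw [← hdv]; exact hd
  · rintro ⟨α, hα⟩
    refine ⟨fun o => match o with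
      | .inl q => α q.1 = q.2
      | .inr q => q.2 = vals α q.1, fun e he => ?_⟩
    simp only [elems, List.mem_append, List.mem_map, List.mem_flatMap] at he
    rcases he with ⟨v, hv', rfl⟩ | ⟨c, hc, rfl⟩ | ⟨c, hc, ⟨j, y⟩, _, rfl⟩
    · refine ⟨Sum.inl (v, α v), mem_origins.2 (Or.inl ⟨v, hv', _, hdd' _, rfl⟩), rfl,
        by simp only [toSet]; rw [mem_setV]; exact Or.inl rfl, ?_⟩
      intro o' ho' hp' he'
      rcases o' with ⟨v', x⟩ | ⟨c, d⟩
      · simp only [toSet] at he'
        rw [mem_setV] at he'
        rcases he' with h | ⟨c'', _, q, _, h1, h2, h⟩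
        · simp only [Sum.inl.injEq] at h
          subst h
          simp only at hp'
          rw [hp']
        · simp at h
      · simp only [toSet] at he'
        rw [mem_setC] at he'
        rcases he' with h | ⟨j, h⟩ <;> simp at h
    · refine ⟨Sum.inr (c, vals α c), mem_origins.2 (Or.inr ⟨c, hc, _, hα c hc, rfl⟩), rfl,
        by simp only [toSet]; rw [mem_setC]; exact Or.inl rfl, ?_⟩
      intro o' ho' hp' he'
      rcases o' with ⟨v', x⟩ | ⟨c', d⟩
      · simp only [toSet] at he'
        rw [mem_setV] at he'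
        rcases he' with h | ⟨c'', _, q, _, h1, h2, h⟩
        · simp at h
        · simp at h
      · simp only [toSet] at he'
        rw [mem_setC] at he'
        rcases he' with h | ⟨j, h⟩
        · simp only [Sum.inr.injEq, Sum.inl.injEq] at h
          subst h
          simp only at hp'
          rw [hp']
        · simp at h
    · by_cases hy : y = α (cvar c j)
      · refine ⟨Sum.inr (c, vals α c), mem_origins.2 (Or.inr ⟨c, hc, _, hα c hc, rfl⟩), rfl,
          ?_, ?_⟩
        · simp only [toSet]; rw [mem_setC]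
          exact Or.inr ⟨j, by rw [fval_vals, hy]⟩
        · intro o' ho' hp' he'
          rcases o' with ⟨v', x⟩ | ⟨c', d⟩
          · simp only [toSet] at he'
            rw [mem_setV] at he'
            rcases he' with h | ⟨c'', _, q, _, h1, h2, h⟩
            · simp at h
            · simp only [Sum.inr.injEq, Prod.mk.injEq] at h
              obtain ⟨rfl, hq1, hq2⟩ := h
              simp only at hp'
              rw [← hp', ← h1, ← hq1, ← hq2] at h2
              exact absurd hy h2
          · simp only [toSet] at he'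
            rw [mem_setC] at he'
            rcases he' with h | ⟨j', h⟩
            · simp at h
            · simp only [Sum.inr.injEq, Prod.mk.injEq] at h
              obtain ⟨rfl, -, -⟩ := h
              simp only at hp'
              rw [hp']
      · refine ⟨Sum.inl (cvar c j, α (cvar c j)),
          mem_origins.2 (Or.inl ⟨_, hcv c hc j, _, hdd' _, rfl⟩), rfl, ?_, ?_⟩
        · simp only [toSet]; rw [mem_setV]
          exact Or.inr ⟨c, hc, (j, y), hfd _, rfl, hy, rfl⟩
        · intro o' ho' hp' he'
          rcases o' with ⟨v', x⟩ | ⟨c', d⟩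
          · simp only [toSet] at he'
            rw [mem_setV] at he'
            rcases he' with h | ⟨c'', _, q, _, h1, h2, h⟩
            · simp at h
            · simp only [Sum.inr.injEq, Prod.mk.injEq] at h
              obtain ⟨rfl, hq1, hq2⟩ := h
              simp only at hp'
              rw [← hp', ← h1, ← hq1]
          · simp only [toSet] at he'
            rw [mem_setC] at he'
            rcases he' with h | ⟨j', h⟩
            · simp at h
            · simp only [Sum.inr.injEq, Prod.mk.injEq] at h
              obtain ⟨rfl, rfl, h3⟩ := h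
              simp only at hp'
              rw [hp', fval_vals] at h3
              exact absurd h3 hy

end csp

/-! ### The constraints of the Cook-Levin theorem -/

lemma nodup_grid (n : ℕ) : (grid n).Nodup := by
  unfold grid
  rw [List.nodup_flatMap]
  refine ⟨fun t _ => List.nodup_range.map fun x y h => ?_,
    List.nodup_range.imp fun {v w} hvw => ?_⟩
  · simpa using h
  · intro o ho ho'
    simp only [List.mem_map] at ho ho'
    obtain ⟨x, _, rfl⟩ := ho
    obtain ⟨y, _, h⟩ := ho'
    simp only [Prod.mk.injEq] at h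
    exact hvw h.1.symm

lemma initType_ne (x : List Bool) (P i : ℕ) : (∀ b, initType x P i ≠ CType.trans b) ∧
    initType x P i ≠ CType.contig ∧ initType x P i ≠ CType.final := by
  unfold initType
  cases x[i]? with
  | some b => simp
  | none =>
    simp only
    split_ifs <;> simp

lemma nodup_cons (P N : ℕ) (x : List Bool) : (cons P N x).Nodup := by
  unfold cons
  refine List.Nodup.append ?_ (List.Nodup.append ?_ (List.Nodup.append ?_ ?_ ?_) ?_) ?_
  · refine (nodup_grid N).map fun v w h => ?_
    simp only [Prod.mk.injEq, Nat.add_right_cancel_iff] at h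
    exact Prod.ext h.2.1.1 h.2.1.2
  · refine List.nodup_range.map fun v w h => ?_
    simp only [Prod.mk.injEq] at h
    exact h.2.1.2
  · refine (List.nodup_range.filter _).map fun v w h => ?_
    simp only [Prod.mk.injEq] at h
    exact h.2.1.2
  · simp
  · intro c hc hc'
    simp only [List.mem_map, List.mem_cons, List.not_mem_nil, or_false] at hc hc'
    obtain ⟨i, _, rfl⟩ := hc
    simp at hc'
  · intro c hc hc'
    simp only [List.mem_map, List.mem_append, List.mem_cons, List.not_mem_nil, or_false] at hc hc'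
    obtain ⟨i, _, rfl⟩ := hc
    rcases hc' with ⟨j, _, h⟩ | h
    · simp only [Prod.mk.injEq] at h
      exact (initType_ne x P i).2.1 h.1.symm
    · simp only [Prod.mk.injEq] at h
      exact (initType_ne x P i).2.2 h.1
  · intro c hc hc'
    simp only [List.mem_map, List.mem_append, List.mem_cons, List.not_mem_nil, or_false] at hc hc'
    obtain ⟨v, _, rfl⟩ := hc
    rcases hc' with ⟨j, _, h⟩ | ⟨j, _, h⟩ | h
    · simp only [Prod.mk.injEq] at h
      exact (initType_ne x P j).1 _ h.1
    · simp at h
    · simp at h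

section machine

variable (M : TM2ComputableAux (Bool ⊕ Bool) Bool)

/-- The satisfying values of a constraint. -/
noncomputable def allow (c : CType) : List (Five (D M.tm)) :=
  haveI : Fintype (Five (D M.tm)) := Fintype.ofFinite _
  haveI := Classical.decPred (fun d : Five (D M.tm) => okF M c d)
  Finset.univ.toList.filter fun d => decide (okF M c d)

lemma mem_allow (c : CType) (d : Five (D M.tm)) : d ∈ allow M c ↔ okF M c d := by
  unfold allow
  rw [List.mem_filter]
  simp

lemma nodup_allow (c : CType) : (allow M c).Nodup := by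
  unfold allow
  exact (Finset.nodup_toList _).filter _

/-- All values. -/
noncomputable def allD : List (D M.tm) :=
  haveI : Fintype (D M.tm) := Fintype.ofFinite _
  Finset.univ.toList

/-- All pairs of a position and a value. -/
noncomputable def allFD : List (Fin 5 × D M.tm) :=
  haveI : Fintype (Fin 5 × D M.tm) := Fintype.ofFinite _
  Finset.univ.toList

/-- The elements of the exact cover problem. -/
abbrev ElM : Type _ := El CType Var (D M.tm)

/-- The sets of the exact cover problem of an input. -/
noncomputable def setsM (P N : ℕ) (x : List Bool) : List (List (ElM M)) :=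
  sets (allD M) (allFD M) (allow M) (grid (N + 1)) (cons P N x)

/-- The elements of the exact cover problem of an input. -/
noncomputable def elemsM (P N : ℕ) (x : List Bool) : List (ElM M) :=
  elems (allFD M) (grid (N + 1)) (cons P N x)

/-- **The exact cover problem of an input.** -/
theorem coverM_iff (P N : ℕ) (x : List Bool) :
    Cover (setsM M P N x) (elemsM M P N x) ↔ ∃ α : Var → D M.tm, Sat M x P N α := by
  unfold setsM elemsM
  rw [cover_csp]
  · refine exists_congr fun α => ?_
    rw [sat_iff_cons]
    refine forall_congr' fun c => forall_congr' fun _ => ?_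
    rw [mem_allow]
  · exact Finset.nodup_toList _
  · intro d; unfold allD; simp
  · intro d; unfold allFD; simp
  · exact nodup_allow M
  · exact nodup_grid _
  · exact nodup_cons P N x
  · intro c hc
    have h : c.2.1 ∈ grid (N + 1) ∧ c.2.2.1 ∈ grid (N + 1) ∧ c.2.2.2.1 ∈ grid (N + 1) ∧
        c.2.2.2.2.1 ∈ grid (N + 1) ∧ c.2.2.2.2.2 ∈ grid (N + 1) := by
      simp only [cons, List.mem_append, List.mem_map, List.mem_filter, List.mem_range,
        decide_eq_true_eq, List.mem_cons, List.not_mem_nil, or_false] at hc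
      simp only [mem_grid]
      rcases hc with ⟨v, hv, rfl⟩ | ⟨i, hi, rfl⟩ | ⟨i, ⟨hi, hi'⟩, rfl⟩ | rfl
      · rw [mem_grid] at hv
        simp only
        omega
      · simp only; omega
      · simp only; omega
      · simp only; omega
    intro j
    fin_cases j
    · exact h.1
    · exact h.2.1
    · exact h.2.2.1
    · exact h.2.2.2.1
    · exact h.2.2.2.2

end machine

/-! ### Polynomial-time computability -/

noncomputable instance instPEncFin5 : PEnc (Fin 5) := finEnc _

section ptime

variable {α : Type*} [PEnc α]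

lemma ptf_cvar {κ ι : Type*} [PEnc κ] [PEnc ι] {c : α → Con κ ι} {j : α → Fin 5} (hc : PTF c)
    (hj : PTF j) : PTF (fun a => cvar (c a) (j a)) := by
  refine PTF.finCase (f := fun j a => cvar (c a) j) hj fun j => ?_
  fin_cases j
  · exact hc.snd.fst
  · exact hc.snd.snd.fst
  · exact hc.snd.snd.snd.fst
  · exact hc.snd.snd.snd.snd.fst
  · exact hc.snd.snd.snd.snd.snd

variable {κ ι D : Type*} [DecidableEq ι] [DecidableEq D] [PEnc κ] [PEnc ι] [PEnc D]

lemma ptf_setV {fd : List (Fin 5 × D)} {cs : α → List (Con κ ι)} {v : α → ι} {x : α → D}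
    (hcs : PTF cs) (hv : PTF v) (hx : PTF x) : PTF (fun a => setV fd (cs a) (v a) (x a)) := by
  unfold setV
  refine PTF.cons (PTF.inl hv) (PTF.flatMap hcs (PTF.map (PTF.filter (PTF.const fd) ?_) ?_))
  · refine PTF.and (PTF.eq (ptf_cvar PTF.id.fst.snd PTF.id.snd.fst) (hv.comp PTF.id.fst.fst)) ?_
    exact PTF.not (PTF.eq PTF.id.snd.snd (hx.comp PTF.id.fst.fst))
  · exact PTF.inr (PTF.inr (PTF.pair PTF.id.fst.snd (PTF.pair PTF.id.snd.fst PTF.id.snd.snd)))

omit [DecidableEq ι] [DecidableEq D] in
lemma ptf_fval {d : α → Five D} (hd : PTF d) (j : Fin 5) : PTF (fun a => fval (d a) j) := by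
  fin_cases j
  · exact hd.fst
  · exact hd.snd.fst
  · exact hd.snd.snd.fst
  · exact hd.snd.snd.snd.fst
  · exact hd.snd.snd.snd.snd

omit [DecidableEq ι] [DecidableEq D] in
lemma ptf_setC {c : α → Con κ ι} {d : α → Five D} (hc : PTF c) (hd : PTF d) :
    PTF (fun a => setC (c a) (d a)) := by
  unfold setC
  have h : ∀ j : Fin 5, PTF (fun a => (Sum.inr (Sum.inr (c a, j, fval (d a) j)) : El κ ι D)) :=
    fun j => PTF.inr (PTF.inr (PTF.pair hc (PTF.pair (PTF.const j) (ptf_fval hd j))))
  exact PTF.cons (PTF.inr (PTF.inl hc)) (PTF.cons (h 0) (PTF.cons (h 1) (PTF.cons (h 2)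
    (PTF.cons (h 3) (PTF.cons (h 4) (PTF.const []))))))

lemma ptf_sets [Finite κ] {dd : List D} {fd : List (Fin 5 × D)} {allow : κ → List (Five D)}
    {vars : α → List ι} {cs : α → List (Con κ ι)} (hvars : PTF vars) (hcs : PTF cs) :
    PTF (fun a => sets dd fd allow (vars a) (cs a)) := by
  unfold sets
  refine PTF.append (PTF.flatMap hvars (PTF.map (PTF.const dd) ?_))
    (PTF.flatMap hcs (PTF.map ((PTF.ofFinite allow).comp PTF.id.snd.fst) ?_))
  · exact ptf_setV (hcs.comp PTF.id.fst.fst) PTF.id.fst.snd PTF.id.snd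
  · exact ptf_setC PTF.id.fst.snd PTF.id.snd

omit [DecidableEq ι] [DecidableEq D] in
lemma ptf_elems {fd : List (Fin 5 × D)}
    {vars : α → List ι} {cs : α → List (Con κ ι)} (hvars : PTF vars) (hcs : PTF cs) :
    PTF (fun a => elems fd (vars a) (cs a)) := by
  unfold elems
  refine PTF.append (PTF.map hvars (PTF.inl PTF.id.snd)) (PTF.append
    (PTF.map hcs (PTF.inr (PTF.inl PTF.id.snd))) (PTF.flatMap hcs (PTF.map (PTF.const fd) ?_)))
  exact PTF.inr (PTF.inr (PTF.pair PTF.id.fst.snd (PTF.pair PTF.id.snd.fst PTF.id.snd.snd)))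

lemma ptf_setsM (M : TM2ComputableAux (Bool ⊕ Bool) Bool) {x : α → List Bool} {P N : α → ℕ}
    (hx : PTF x) (hP : PTF P) (hN : PTF N) : PTF (fun a => setsM M (P a) (N a) (x a)) := by
  unfold setsM
  exact ptf_sets (ptf_grid (PTF.succ hN)) (ptf_cons hx hP hN)

lemma ptf_elemsM (M : TM2ComputableAux (Bool ⊕ Bool) Bool) {x : α → List Bool} {P N : α → ℕ}
    (hx : PTF x) (hP : PTF P) (hN : PTF N) : PTF (fun a => elemsM M (P a) (N a) (x a)) := by
  unfold elemsM
  exact ptf_elems (ptf_grid (PTF.succ hN)) (ptf_cons hx hP hN)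

end ptime

/-- **Exact cover is NP-hard.** For every polynomial-time verifier there are polynomial-time
computable exact cover problems that are solvable if and only if there is a certificate. -/
theorem exists_cover (p : Polynomial ℕ) (R : List Bool × List Bool → Bool)
    (hR : Nonempty (TM2ComputableInPolyTime
      (encodingProd (encodingList Bool) (encodingList Bool)).encode encodeBool R)) :
    ∃ (E : Type) (_ : PEnc E) (_ : DecidableEq E) (S : List Bool → List (List E))
      (U : List Bool → List E), PTF S ∧ PTF U ∧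
      ∀ x, (∃ y : List Bool, y.length ≤ p.eval x.length ∧ R (x, y) = true) ↔
        Cover (S x) (U x) := by
  obtain ⟨H⟩ := hR
  let M := H.toTM2ComputableAux
  let q : Polynomial ℕ := Polynomial.C (bnd H.tm) * H.time.comp (Polynomial.X + p) +
    (Polynomial.X + p)
  let P : List Bool → ℕ := fun x => p.eval x.length
  let N : List Bool → ℕ := fun x => q.eval x.length
  have hN1 : ∀ x : List Bool, bnd H.tm * H.time.eval (x.length + P x) ≤ N x := by
    intro x
    simp only [N, P, q, Polynomial.eval_add, Polynomial.eval_mul, Polynomial.eval_C,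
      Polynomial.eval_comp, Polynomial.eval_X]
    omega
  have hN2 : ∀ x : List Bool, x.length + P x ≤ N x := by
    intro x
    simp only [N, P, q, Polynomial.eval_add, Polynomial.eval_mul, Polynomial.eval_C,
      Polynomial.eval_comp, Polynomial.eval_X]
    omega
  have hPp : PTF P := PTF.polyEval p (PTF.length PTF.id)
  have hNp : PTF N := PTF.polyEval q (PTF.length PTF.id)
  refine ⟨ElM M, inferInstance, Classical.decEq _, fun x => setsM M (P x) (N x) x,
    fun x => elemsM M (P x) (N x) x, ptf_setsM M PTF.id hPp hNp, ptf_elemsM M PTF.id hPp hNp,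
    fun x => ?_⟩
  rw [coverM_iff]
  exact sat_iff H x (P x) (N x) (hN1 x) (hN2 x)

end Pool.Agent.Helper86.XC
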