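import Mathlib
import Pool.Agent.Helper86.Sync.Graph
import Pool.Agent.Helper86.Sync.XC

/-!
# From exact cover to totally synchronizing digraphs
-/

open Function
open Pool.Agent.Helper91.PolyTime Pool.Agent.Helper86.XC

namespace Pool.Agent.Helper86.Sync

/-! ### Exact cover as a balancing problem -/

/-- Exact cover in terms of an incidence matrix. -/
def XCi (t m : ℕ) (inc : ℕ → ℕ → Bool) : Prop :=
  ∃ c : ℕ → Bool, ∀ j < m, ∑ i ∈ Finset.range t, (if inc i j && c i then 1 else 0) = 1

/-- The matrix of the balancing problem. -/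
def mat (t : ℕ) (inc : ℕ → ℕ → Bool) (i j : ℕ) : ℕ :=
  if j = 0 then (if i < 2 then 1 else 0)
  else if i = 0 then ((List.range t).map fun i' => if inc i' (j - 1) then 1 else 0).sum
  else if i = 1 then 2 else if inc (i - 2) (j - 1) then 1 else 0

lemma sum_range_mat (t : ℕ) (inc : ℕ → ℕ → Bool) (j : ℕ) (f : ℕ → ℕ → ℕ) :
    ∑ i ∈ Finset.range (t + 2), f i (mat t inc i (j + 1)) =
      f 0 (∑ i ∈ Finset.range t, if inc i j then 1 else 0) + f 1 2 +
        ∑ i ∈ Finset.range t, f (i + 2) (if inc i j then 1 else 0) := by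
  rw [Finset.sum_range_succ', Finset.sum_range_succ']
  have h0 : mat t inc 0 (j + 1) = ∑ i ∈ Finset.range t, if inc i j then 1 else 0 := by
    rw [← sum_map_range]
    simp [mat]
  have h1 : mat t inc (0 + 1) (j + 1) = 2 := by simp [mat]
  rw [h0, h1]
  have h2 : ∀ i, mat t inc (i + 1 + 1) (j + 1) = if inc i j then 1 else 0 := by
    intro i
    simp [mat]
  simp only [h2]
  ring

lemma sum_range_mat0 (t : ℕ) (inc : ℕ → ℕ → Bool) (f : ℕ → ℕ → ℕ) (hf : ∀ i, f i 0 = 0) :
    ∑ i ∈ Finset.range (t + 2), f i (mat t inc i 0) = f 0 1 + f 1 1 := by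
  rw [Finset.sum_range_succ', Finset.sum_range_succ']
  have h0 : mat t inc 0 0 = 1 := by simp [mat]
  have h1 : mat t inc (0 + 1) 0 = 1 := by simp [mat]
  rw [h0, h1]
  have h2 : ∀ i, mat t inc (i + 1 + 1) 0 = 0 := by
    intro i
    simp [mat]
  simp only [h2, hf]
  simp only [Finset.sum_const_zero]
  ring

lemma sum_ind_le (t : ℕ) (p : ℕ → Bool) : (∑ i ∈ Finset.range t, if p i then 1 else 0) ≤ t := by
  calc (∑ i ∈ Finset.range t, if p i then 1 else 0) ≤ ∑ _i ∈ Finset.range t, 1 :=
        Finset.sum_le_sum fun i _ => by split_ifs <;> omega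
    _ = t := by simp

lemma rowSum_mat_le (t : ℕ) (inc : ℕ → ℕ → Bool) (j : ℕ) :
    rowSum (t + 2) (mat t inc) j ≤ 2 * t + 2 := by
  rw [rowSum_eq]
  cases j with
  | zero =>
    rw [sum_range_mat0 t inc (fun _ x => x) (fun _ => rfl)]
    omega
  | succ j =>
    rw [sum_range_mat t inc j (fun _ x => x)]
    have := sum_ind_le t (fun i => inc i j)
    omega

theorem balanced_iff (t m : ℕ) (inc : ℕ → ℕ → Bool) :
    Balanced (t + 2) (m + 1) (mat t inc) ↔ XCi t m inc := by
  have key : ∀ (s : ℕ → Bool) (j : ℕ),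
      (2 * ∑ i ∈ Finset.range (t + 2), (if s i then mat t inc i (j + 1) else 0) =
        ∑ i ∈ Finset.range (t + 2), mat t inc i (j + 1)) ↔
      (2 * ((if s 0 then ∑ i ∈ Finset.range t, (if inc i j then 1 else 0) else 0) +
        (if s 1 then 2 else 0) + ∑ i ∈ Finset.range t, (if inc i j && s (i + 2) then 1 else 0)) =
      2 * (∑ i ∈ Finset.range t, (if inc i j then 1 else 0)) + 2) := by
    intro s j
    rw [sum_range_mat t inc j (fun i x => if s i then x else 0),
      sum_range_mat t inc j (fun _ x => x)]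
    have h1 : ∀ i, (if s (i + 2) = true then (if inc i j = true then 1 else 0) else 0) =
        if (inc i j && s (i + 2)) = true then 1 else 0 := by
      intro i
      cases s (i + 2) <;> cases inc i j <;> simp
    simp only [h1]
    constructor
    · intro h; rw [h]; ring
    · intro h; rw [h]; ring
  have key0 : ∀ (s : ℕ → Bool),
      (2 * ∑ i ∈ Finset.range (t + 2), (if s i then mat t inc i 0 else 0) =
        ∑ i ∈ Finset.range (t + 2), mat t inc i 0) ↔ s 0 = !(s 1) := by
    intro s
    rw [sum_range_mat0 t inc (fun i x => if s i then x else 0) (fun i => by simp),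
      sum_range_mat0 t inc (fun _ x => x) (fun _ => rfl)]
    cases s 0 <;> cases s 1 <;> simp
  constructor
  · rintro ⟨s, hs⟩
    have h0 := (key0 s).1 (hs 0 (by omega))
    cases h1 : s 1 with
    | false =>
      rw [h1] at h0
      refine ⟨fun i => s (i + 2), fun j hj => ?_⟩
      have h2 := (key s j).1 (hs (j + 1) (by omega))
      rw [h0, h1] at h2
      simp only [Bool.not_false, if_true, Bool.false_eq_true, if_false] at h2
      show ∑ i ∈ Finset.range t, (if (inc i j && s (i + 2)) = true then 1 else 0) = 1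
      omega
    | true =>
      rw [h1] at h0
      refine ⟨fun i => !(s (i + 2)), fun j hj => ?_⟩
      have h2 := (key s j).1 (hs (j + 1) (by omega))
      rw [h0, h1] at h2
      simp only [Bool.not_true, if_true, Bool.false_eq_true, if_false] at h2
      have h3 : ∑ i ∈ Finset.range t, (if inc i j && s (i + 2) then 1 else 0) +
          ∑ i ∈ Finset.range t, (if inc i j && !(s (i + 2)) then 1 else 0) =
          ∑ i ∈ Finset.range t, (if inc i j then 1 else 0) := by
        rw [← Finset.sum_add_distrib]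
        refine Finset.sum_congr rfl fun i _ => ?_
        cases inc i j <;> cases s (i + 2) <;> simp
      show ∑ i ∈ Finset.range t, (if (inc i j && !(s (i + 2))) = true then 1 else 0) = 1
      omega
  · rintro ⟨c, hc⟩
    refine ⟨fun i => if i = 0 then true else if i = 1 then false else c (i - 2), fun j hj => ?_⟩
    cases j with
    | zero =>
      rw [key0]; simp
    | succ j =>
      rw [key]
      have h1 := hc j (by omega)
      simp only [if_true, one_ne_zero, if_false, Bool.false_eq_true]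
      have h2 : ∀ i, (if i + 2 = 0 then true else if i + 2 = 1 then false else c (i + 2 - 2)) =
          c i := by
        intro i
        simp
      simp only [h2, h1]
      ring

/-! ### The incidence matrix of a list of sets -/

section lists

variable {E : Type*} [DecidableEq E]

/-- The incidence matrix. -/
def incl (S : List (List E)) (U : List E) (i j : ℕ) : Bool :=
  match U[j]? with
  | none => false
  | some e => match S[i]? with
    | none => false
    | some l => l.any fun x => decide (x = e)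

lemma incl_iff {S : List (List E)} {U : List E} {i j : ℕ} (hj : j < U.length) :
    incl S U i j = true ↔ ∃ h : i < S.length, U[j] ∈ S[i] := by
  unfold incl
  rw [List.getElem?_eq_getElem hj]
  by_cases hi : i < S.length
  · rw [List.getElem?_eq_getElem hi]
    simp only [List.any_eq_true, decide_eq_true_eq, exists_eq_right]
    exact ⟨fun h => ⟨hi, h⟩, fun ⟨_, h⟩ => h⟩
  · rw [List.getElem?_eq_none (by omega)]
    simp [hi]

lemma sum_ind_eq_one (t : ℕ) (p : ℕ → Bool) :
    (∑ i ∈ Finset.range t, (if p i then 1 else 0) = 1) ↔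
      ∃ i, (i < t ∧ p i = true) ∧ ∀ i', (i' < t ∧ p i' = true) → i' = i := by
  rw [← Finset.card_filter, Finset.card_eq_one]
  constructor
  · rintro ⟨i, hi⟩
    have h1 : ∀ i', (i' < t ∧ p i' = true) ↔ i' = i := by
      intro i'
      have : i' ∈ (Finset.range t).filter (fun i => p i = true) ↔ i' ∈ ({i} : Finset ℕ) := by
        rw [hi]
      simpa using this
    exact ⟨i, (h1 i).2 rfl, fun i' h => (h1 i').1 h⟩
  · rintro ⟨i, hi, huniq⟩
    refine ⟨i, ?_⟩
    ext i'
    simp only [Finset.mem_filter, Finset.mem_range, Finset.mem_singleton]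
    exact ⟨fun h => huniq i' h, fun h => h ▸ hi⟩

theorem xci_iff (S : List (List E)) (U : List E) :
    XCi S.length U.length (incl S U) ↔ Cover S U := by
  unfold XCi Cover
  refine exists_congr fun c => ?_
  have h1 : ∀ j (hj : j < U.length),
      (∑ i ∈ Finset.range S.length, (if incl S U i j && c i then 1 else 0) = 1) ↔
      ∃ i : ℕ, (∃ h : i < S.length, c i = true ∧ U[j] ∈ S[i]) ∧
        ∀ i', (∃ h : i' < S.length, c i' = true ∧ U[j] ∈ S[i']) → i' = i := by
    intro j hj
    rw [sum_ind_eq_one]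
    have h2 : ∀ i, (i < S.length ∧ (incl S U i j && c i) = true) ↔
        ∃ h : i < S.length, c i = true ∧ U[j] ∈ S[i] := by
      intro i
      rw [Bool.and_eq_true, incl_iff hj]
      constructor
      · rintro ⟨_, ⟨h, h'⟩, h''⟩; exact ⟨h, h'', h'⟩
      · rintro ⟨h, h', h''⟩; exact ⟨h, ⟨h, h''⟩, h'⟩
    simp only [h2]
  constructor
  · intro h e he
    obtain ⟨j, hj, rfl⟩ := List.mem_iff_getElem.1 he
    exact (h1 j hj).1 (h j hj)
  · intro h j hj
    exact (h1 j hj).2 (h _ (List.getElem_mem _))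

end lists

/-! ### Polynomial-time computability -/

section ptime

variable {α : Type*} [PEnc α]

lemma ptf_replicate {β : Type*} [PEnc β] {n : α → ℕ} {x : α → β} (hn : PTF n) (hx : PTF x) :
    PTF (fun a => List.replicate (n a) (x a)) := by
  refine (PTF.map (f := fun a (_ : ℕ) => x a) (PTF.range hn) (hx.comp PTF.id.fst)).of_eq
    fun a => ?_
  simp

lemma ptf_sum {l : α → List ℕ} (hl : PTF l) : PTF (fun a => (l a).sum) := by
  refine (PTF.length (PTF.flatMap (f := fun _ n => List.replicate n ()) hl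
    (ptf_replicate PTF.id.snd (PTF.const ())))).of_eq fun a => ?_
  induction l a with
  | nil => rfl
  | cons b t ih =>
    rw [List.flatMap_cons, List.length_append, ih]
    simp

lemma ptf_rowSum {t j : α → ℕ} {b : α → ℕ → ℕ → ℕ} (ht : PTF t) (hj : PTF j)
    (hb : PTF (fun p : α × ℕ × ℕ => b p.1 p.2.1 p.2.2)) :
    PTF (fun a => rowSum (t a) (b a) (j a)) := by
  unfold rowSum
  exact ptf_sum (PTF.map (PTF.range ht) (hb.comp (PTF.pair PTF.id.fst
    (PTF.pair PTF.id.snd (hj.comp PTF.id.fst)))))

lemma ptf_base {m β : α → ℕ} (hm : PTF m) (hβ : PTF β) : PTF (fun a => base (m a) (β a)) := by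
  unfold base
  exact PTF.append (ptf_replicate hβ (PTF.const 0)) (ptf_replicate hβ (PTF.succ hm))

lemma ptf_hub {t m β j : α → ℕ} {b : α → ℕ → ℕ → ℕ} (ht : PTF t) (hm : PTF m) (hβ : PTF β)
    (hj : PTF j) (hb : PTF (fun p : α × ℕ × ℕ => b p.1 p.2.1 p.2.2)) :
    PTF (fun a => hub (t a) (m a) (β a) (b a) (j a)) := by
  unfold hub
  have hc : PTF (fun a => β a - 2 * rowSum (t a) (b a) (j a) - 1) :=
    PTF.pred (PTF.sub hβ (PTF.mul (PTF.const 2) (ptf_rowSum ht hj hb)))
  refine PTF.append (PTF.flatMap (PTF.range ht) (ptf_replicate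
    (PTF.mul (PTF.const 4) (hb.comp (PTF.pair PTF.id.fst (PTF.pair PTF.id.snd
      (hj.comp PTF.id.fst)))))
    (PTF.add (PTF.mul (PTF.const 2) (PTF.succ (hm.comp PTF.id.fst))) PTF.id.snd)))
    (PTF.append (PTF.cons (PTF.succ hj) (PTF.cons (PTF.add (PTF.succ hm) (PTF.succ hj))
      (PTF.const []))) (PTF.append (ptf_replicate hc (PTF.const 0))
      (ptf_replicate hc (PTF.succ hm))))

lemma ptf_out {t m β v : α → ℕ} {b : α → ℕ → ℕ → ℕ} (ht : PTF t) (hm : PTF m) (hβ : PTF β)
    (hv : PTF v) (hb : PTF (fun p : α × ℕ × ℕ => b p.1 p.2.1 p.2.2)) :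
    PTF (fun a => out (t a) (m a) (β a) (b a) (v a)) := by
  unfold out
  refine PTF.ite (PTF.lt hv hm) (ptf_hub ht hm hβ hv hb) (PTF.ite (PTF.lt hv (PTF.succ hm))
    (ptf_base hm hβ) (PTF.ite (PTF.lt hv (PTF.succ (PTF.mul (PTF.const 2) hm)))
      (ptf_hub ht hm hβ (PTF.sub hv (PTF.succ hm)) hb) (ptf_base hm hβ)))

variable {E : Type*} [DecidableEq E] [PEnc E]

lemma ptf_incl {S : α → List (List E)} {U : α → List E} {i j : α → ℕ} (hS : PTF S) (hU : PTF U)
    (hi : PTF i) (hj : PTF j) : PTF (fun a => incl (S a) (U a) (i a) (j a)) := by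
  unfold incl
  have h := PTF.optCase (o := fun a => (U a)[j a]?) (n := fun _ => false)
    (s := fun a e => match (S a)[i a]? with
      | none => false
      | some l => l.any fun x => decide (x = e)) (PTF.getElem? hj hU) (PTF.const _) ?_
  · refine h.of_eq fun a => ?_
    cases (U a)[j a]? <;> rfl
  · have h2 := PTF.optCase (o := fun p : α × E => (S p.1)[i p.1]?) (n := fun _ => false)
      (s := fun p l => l.any fun x => decide (x = p.2))
      (PTF.getElem? (hi.comp PTF.id.fst) (hS.comp PTF.id.fst)) (PTF.const _)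
      (PTF.any PTF.id.snd (PTF.eq PTF.id.snd PTF.id.fst.fst.snd))
    refine h2.of_eq fun p => ?_
    cases (S p.1)[i p.1]? <;> rfl

lemma ptf_mat {t i j : α → ℕ} {inc : α → ℕ → ℕ → Bool} (ht : PTF t) (hi : PTF i) (hj : PTF j)
    (hinc : PTF (fun p : α × ℕ × ℕ => inc p.1 p.2.1 p.2.2)) :
    PTF (fun a => mat (t a) (inc a) (i a) (j a)) := by
  unfold mat
  refine PTF.ite (PTF.isZero hj) (PTF.ite (PTF.lt hi (PTF.const 2)) (PTF.const 1) (PTF.const 0))
    (PTF.ite (PTF.isZero hi) (ptf_sum (PTF.map (PTF.range ht) (PTF.ite ?_ (PTF.const 1)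
      (PTF.const 0)))) (PTF.ite (PTF.eq hi (PTF.const 1)) (PTF.const 2)
      (PTF.ite ?_ (PTF.const 1) (PTF.const 0))))
  · refine (hinc.comp (PTF.pair PTF.id.fst (PTF.pair PTF.id.snd
      (PTF.pred (hj.comp PTF.id.fst))))).of_eq fun a => ?_
    simp
  · refine (hinc.comp (PTF.pair PTF.id (PTF.pair (PTF.sub hi (PTF.const 2))
      (PTF.pred hj)))).of_eq fun a => ?_
    simp

end ptime

end Pool.Agent.Helper86.Sync
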