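import Mathlib
import Pool.Agent.Helper86.Sync.Red

/-!
# Digraphs as strings, and the verifier
-/

open Function
open Pool.Agent.Helper91.PolyTime

namespace Pool.Agent.Helper86.Sync

/-- The unary code of a number. -/
def unary (m : ℕ) : List Bool := List.replicate m true ++ [false]

/-- The code of a list of numbers. -/
def codeList (l : List ℕ) : List Bool := l.flatMap unary

/-- One step of the parser. -/
def pstep (s : List ℕ × ℕ) (b : Bool) : List ℕ × ℕ := if b then (s.1, s.2 + 1) else (s.1 ++ [s.2], 0)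

/-- The parser. -/
def parse (x : List Bool) : List ℕ × ℕ := x.foldl pstep ([], 0)

lemma foldl_replicate (m : ℕ) : ∀ (l : List ℕ) (c : ℕ),
    (List.replicate m true).foldl pstep (l, c) = (l, c + m) := by
  induction m with
  | zero => intro l c; rfl
  | succ m ih =>
    intro l c
    rw [List.replicate_succ, List.foldl_cons]
    have : pstep (l, c) true = (l, c + 1) := rfl
    rw [this, ih]
    congr 1; omega

lemma foldl_codeList (l : List ℕ) : ∀ acc : List ℕ,
    (codeList l).foldl pstep (acc, 0) = (acc ++ l, 0) := by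
  induction l with
  | nil => intro acc; simp [codeList]
  | cons a l ih =>
    intro acc
    have h : codeList (a :: l) = (List.replicate a true ++ [false]) ++ codeList l := by
      simp [codeList, unary]
    rw [h, List.foldl_append, List.foldl_append, foldl_replicate]
    have h2 : [false].foldl pstep (acc, 0 + a) = (acc ++ [a], 0) := by
      simp [pstep]
    rw [h2, ih]
    simp

lemma parse_codeList (l : List ℕ) : parse (codeList l) = (l, 0) := by
  unfold parse
  rw [foldl_codeList]
  rfl

lemma foldl_inv (x : List Bool) : ∀ (acc : List ℕ) (c : ℕ),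
    codeList (x.foldl pstep (acc, c)).1 ++ List.replicate (x.foldl pstep (acc, c)).2 true =
      codeList acc ++ List.replicate c true ++ x := by
  induction x with
  | nil => intro acc c; simp
  | cons b x ih =>
    intro acc c
    cases b with
    | true =>
      have : pstep (acc, c) true = (acc, c + 1) := rfl
      rw [List.foldl_cons, this, ih]
      simp [List.replicate_succ']
    | false =>
      have : pstep (acc, c) false = (acc ++ [c], 0) := rfl
      rw [List.foldl_cons, this, ih]
      simp [codeList, unary]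

lemma codeList_parse {x : List Bool} (h : (parse x).2 = 0) : codeList (parse x).1 = x := by
  have := foldl_inv x [] 0
  unfold parse at h ⊢
  rw [h] at this
  simpa [codeList] using this

/-- The list of the heads of the edges. -/
def heads {n k : ℕ} (head : Fin n → Fin k → Fin n) : List ℕ :=
  (List.ofFn fun v : Fin n => List.ofFn fun e : Fin k => (head v e).1).flatten

lemma length_heads {n k : ℕ} (head : Fin n → Fin k → Fin n) : (heads head).length = n * k := by
  unfold heads
  rw [List.length_flatten, List.map_ofFn]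
  simp [Function.comp_def]

lemma getElem?_flatten_ofFn {β : Type*} {k : ℕ} : ∀ {n : ℕ} (f : Fin n → Fin k → β) (v : Fin n)
    (e : Fin k), ((List.ofFn fun v : Fin n => List.ofFn fun e : Fin k => f v e).flatten)[v.1 * k +
      e.1]? = some (f v e)
  | 0, _, v, _ => v.elim0
  | n + 1, f, v, e => by
    rw [List.ofFn_succ, List.flatten_cons]
    refine Fin.cases ?_ (fun v => ?_) v
    · rw [List.getElem?_append_left (by simp)]
      simp
    · rw [List.getElem?_append_right (by
        simp only [List.length_ofFn, Fin.val_succ]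
        nlinarith)]
      have h := getElem?_flatten_ofFn (fun v => f v.succ) v e
      have h1 : (v.succ : Fin (n + 1)).1 * k + e.1 -
          (List.ofFn fun e : Fin k => f 0 e).length = v.1 * k + e.1 := by
        simp only [List.length_ofFn, Fin.val_succ]
        rw [Nat.add_mul]
        omega
      rw [h1]
      exact h

lemma getElem?_heads {n k : ℕ} (head : Fin n → Fin k → Fin n) (v : Fin n) (e : Fin k) :
    (heads head)[v.1 * k + e.1]? = some (head v e).1 :=
  getElem?_flatten_ofFn (fun v e => (head v e).1) v e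

lemma heads_lt {n k : ℕ} (head : Fin n → Fin k → Fin n) : ∀ h ∈ heads head, h < n := by
  intro h hh
  unfold heads at hh
  simp only [List.mem_flatten, List.mem_ofFn, exists_exists_eq_and] at hh
  obtain ⟨v, e, rfl⟩ := hh
  exact (head v e).2

lemma exists_heads {n k : ℕ} (l : List ℕ) (hl : l.length = n * k) (hlt : ∀ h ∈ l, h < n) :
    ∃ head : Fin n → Fin k → Fin n, heads head = l := by
  have hidx : ∀ (v : Fin n) (e : Fin k), v.1 * k + e.1 < l.length := by
    intro v e
    rw [hl]
    have h1 := v.2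
    have h2 := e.2
    nlinarith
  refine ⟨fun v e => ⟨l[v.1 * k + e.1]'(hidx v e), hlt _ (List.getElem_mem _)⟩, ?_⟩
  apply List.ext_getElem?
  intro i
  by_cases hi : i < n * k
  · have hk : 0 < k := Nat.pos_of_ne_zero (by rintro rfl; simp at hi)
    have hv : i / k < n := (Nat.div_lt_iff_lt_mul hk).2 hi
    have he : i % k < k := Nat.mod_lt _ hk
    have h1 := getElem?_heads (fun (v : Fin n) (e : Fin k) => (⟨l[v.1 * k + e.1]'(hidx v e),
      hlt _ (List.getElem_mem _)⟩ : Fin n)) ⟨i / k, hv⟩ ⟨i % k, he⟩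
    have h2 : i / k * k + i % k = i := by
      rw [Nat.mul_comm]; exact Nat.div_add_mod i k
    simp only [h2] at h1
    rw [h1, List.getElem?_eq_getElem (by rw [hl]; exact hi)]
  · rw [List.getElem?_eq_none (by rw [length_heads]; omega), List.getElem?_eq_none (by omega)]

/-- The code of a digraph. -/
def gcode {n k : ℕ} (head : Fin n → Fin k → Fin n) : List Bool :=
  codeList (n :: k :: heads head)

lemma heads_headOf {n k : ℕ} {o : ℕ → List ℕ} (h : ∀ v < n, (o v).length = k ∧ ∀ x ∈ o v, x < n) :
    heads (headOf n k o h) = (List.range n).flatMap o := by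
  unfold heads
  have h1 : ∀ v : Fin n, (List.ofFn fun e : Fin k => (headOf n k o h v e).1) = o v.1 := by
    intro v
    apply List.ext_getElem
    · simp [(h v v.2).1]
    · intro i h1 h2
      simp [headOf]
  simp only [h1]
  rw [List.flatMap_def]
  congr 1
  apply List.ext_getElem
  · simp
  · intro i h1 h2
    simp

/-! ### The verifier -/

/-- An entry of a list of numbers. -/
def nth (l : List ℕ) (i : ℕ) : ℕ :=
  match l[i]? with
  | none => 0
  | some a => a

/-- A bit of a string. -/
def bit (l : List Bool) (i : ℕ) : Bool :=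
  match l[i]? with
  | none => false
  | some a => a

/-- Bounded universal quantifier. -/
def ball (n : ℕ) (f : ℕ → Bool) : Bool := (List.range n).all f

/-- Bounded existential quantifier. -/
def bex (n : ℕ) (f : ℕ → Bool) : Bool := (List.range n).any f

lemma ball_iff {n : ℕ} {f : ℕ → Bool} : ball n f = true ↔ ∀ i < n, f i = true := by
  simp [ball]

lemma bex_iff {n : ℕ} {f : ℕ → Bool} : bex n f = true ↔ ∃ i < n, f i = true := by
  simp [bex]

/-- The list of numbers codes a digraph. -/
def validL (l : List ℕ) : Bool :=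
  decide (0 < nth l 0) && (decide (0 < nth l 1) &&
    (decide (l.length = 2 + nth l 0 * nth l 1) &&
      ball (nth l 0 * nth l 1) fun i => decide (nth l (2 + i) < nth l 0)))

/-- The string codes a digraph. -/
def validB (x : List Bool) : Bool := decide ((parse x).2 = 0) && validL (parse x).1

/-- The bit of the certificate that says that edge `e` of `v` has colour `a`. -/
def cbit (k : ℕ) (y : List Bool) (v a e : ℕ) : Bool := bit y (2 * ((v * k + a) * k + e))

/-- The bit of the certificate that says that `u` and `v` are never merged. -/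
def rbit (n : ℕ) (y : List Bool) (u v : ℕ) : Bool := bit y (2 * (u * n + v) + 1)

/-- The certificate is a colouring together with a relation that shows that it is not
synchronizing. -/
def certL (n k : ℕ) (l : List ℕ) (y : List Bool) : Bool :=
  (ball n fun v => ball k fun a => bex k fun e => cbit k y v a e) &&
  ((ball n fun v => ball k fun e => bex k fun a => cbit k y v a e) &&
  ((ball n fun v => ball k fun a => ball k fun e => ball k fun e' =>
    !(cbit k y v a e && cbit k y v a e') || decide (e = e')) &&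
  ((bex n fun u => bex n fun v => rbit n y u v) &&
  ((ball n fun u => !(rbit n y u u)) &&
  (ball n fun u => ball n fun v => ball k fun a => ball k fun e => ball k fun e' =>
    !(rbit n y u v && (cbit k y u a e && cbit k y v a e')) ||
      rbit n y (nth l (2 + (u * k + e))) (nth l (2 + (v * k + e'))))))))

/-- The verifier for the complement. -/
def verifier (a : List Bool × List Bool) : Bool :=
  !(validB a.1) || certL (nth (parse a.1).1 0) (nth (parse a.1).1 1) (parse a.1).1 a.2

section ptime

variable {α : Type*} [PEnc α]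

lemma ptf_nth {l : α → List ℕ} {i : α → ℕ} (hl : PTF l) (hi : PTF i) :
    PTF (fun a => nth (l a) (i a)) := by
  refine (PTF.optCase (s := fun _ b => b) (PTF.getElem? hi hl) (PTF.const 0)
    PTF.id.snd).of_eq fun a => ?_
  unfold nth
  cases (l a)[i a]? <;> rfl

lemma ptf_bit {l : α → List Bool} {i : α → ℕ} (hl : PTF l) (hi : PTF i) :
    PTF (fun a => bit (l a) (i a)) := by
  refine (PTF.optCase (s := fun _ b => b) (PTF.getElem? hi hl) (PTF.const false)
    PTF.id.snd).of_eq fun a => ?_
  unfold bit
  cases (l a)[i a]? <;> rfl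

lemma ptf_ball {n : α → ℕ} {f : α → ℕ → Bool} (hn : PTF n)
    (hf : PTF (fun p : α × ℕ => f p.1 p.2)) : PTF (fun a => ball (n a) (f a)) :=
  PTF.all (PTF.range hn) hf

lemma ptf_bex {n : α → ℕ} {f : α → ℕ → Bool} (hn : PTF n)
    (hf : PTF (fun p : α × ℕ => f p.1 p.2)) : PTF (fun a => bex (n a) (f a)) :=
  PTF.any (PTF.range hn) hf

lemma ptf_unary {m : α → ℕ} (hm : PTF m) : PTF (fun a => unary (m a)) := by
  unfold unary
  exact PTF.append (ptf_replicate hm (PTF.const true)) (PTF.const [false])

lemma ptf_codeList {l : α → List ℕ} (hl : PTF l) : PTF (fun a => codeList (l a)) := by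
  unfold codeList
  exact PTF.flatMap hl (ptf_unary PTF.id.snd)

lemma ptf_pstep : PTF (fun p : List Bool × (List ℕ × ℕ) × Bool => pstep p.2.1 p.2.2) := by
  have h := PTF.cond (α := List Bool × (List ℕ × ℕ) × Bool) (c := fun p => p.2.2)
    (f := fun p => (p.2.1.1, p.2.1.2 + 1)) (g := fun p => (p.2.1.1 ++ [p.2.1.2], 0))
    PTF.id.snd.snd (PTF.pair PTF.id.snd.fst.fst (PTF.succ PTF.id.snd.fst.snd))
    (PTF.pair (PTF.append PTF.id.snd.fst.fst (PTF.cons PTF.id.snd.fst.snd (PTF.const [])))
      (PTF.const 0))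
  refine h.of_eq fun p => ?_
  unfold pstep
  cases p.2.2 <;> rfl

lemma length_pfold (t : List Bool) : ∀ (acc : List ℕ) (c : ℕ),
    (enc (t.foldl pstep (acc, c)).1).length + 2 * (t.foldl pstep (acc, c)).2 ≤
      (enc acc).length + 2 * c + 2 * t.length := by
  induction t with
  | nil => intro acc c; simp
  | cons b t ih =>
    intro acc c
    rw [List.foldl_cons, List.length_cons]
    cases b with
    | true =>
      have : pstep (acc, c) true = (acc, c + 1) := rfl
      rw [this]
      have := ih acc (c + 1)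
      omega
    | false =>
      have : pstep (acc, c) false = (acc ++ [c], 0) := rfl
      rw [this]
      have := ih (acc ++ [c]) 0
      rw [length_enc_append, length_enc_cons, enc_nil, length_enc_nat, List.length_nil] at this
      omega

lemma ptf_parse {x : α → List Bool} (hx : PTF x) : PTF (fun a => parse (x a)) := by
  have h : PTF (fun x : List Bool => parse x) := by
    unfold parse
    refine PTF.foldl (l := fun x : List Bool => x) (g := fun _ => ([], 0))
      (F := fun _ => pstep) PTF.id (PTF.const _) ptf_pstep (4 * Polynomial.X + 1) ?_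
    intro a t ht
    have h1 := length_pfold t [] 0
    rcases hs : t.foldl pstep ([], 0) with ⟨l, c⟩
    rw [hs] at h1
    rw [length_enc_prod, length_enc_nat]
    have h2 := ht.length_le.trans (length_le_enc a)
    simp only [enc_nil, List.length_nil] at h1
    simp only [Polynomial.eval_add, Polynomial.eval_mul, Polynomial.eval_ofNat,
      Polynomial.eval_X, Polynomial.eval_one]
    omega
  exact h.comp hx

lemma ptf_validL {l : α → List ℕ} (hl : PTF l) : PTF (fun a => validL (l a)) := by
  unfold validL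
  have h0 := ptf_nth hl (PTF.const 0)
  have h1 := ptf_nth hl (PTF.const 1)
  refine PTF.and (PTF.lt (PTF.const 0) h0) (PTF.and (PTF.lt (PTF.const 0) h1) (PTF.and
    (PTF.eq (PTF.length hl) (PTF.add (PTF.const 2) (PTF.mul h0 h1)))
    (ptf_ball (PTF.mul h0 h1) ?_)))
  exact PTF.lt (ptf_nth (hl.comp PTF.id.fst) (PTF.add (PTF.const 2) PTF.id.snd))
    (h0.comp PTF.id.fst)

lemma ptf_cbit {k v a e : α → ℕ} {y : α → List Bool} (hk : PTF k) (hy : PTF y) (hv : PTF v)
    (ha : PTF a) (he : PTF e) : PTF (fun p => cbit (k p) (y p) (v p) (a p) (e p)) := by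
  unfold cbit
  exact ptf_bit hy (PTF.mul (PTF.const 2) (PTF.add (PTF.mul (PTF.add (PTF.mul hv hk) ha) hk) he))

lemma ptf_rbit {n u v : α → ℕ} {y : α → List Bool} (hn : PTF n) (hy : PTF y) (hu : PTF u)
    (hv : PTF v) : PTF (fun p => rbit (n p) (y p) (u p) (v p)) := by
  unfold rbit
  exact ptf_bit hy (PTF.succ (PTF.mul (PTF.const 2) (PTF.add (PTF.mul hu hn) hv)))

lemma ptf_certL {n k : α → ℕ} {l : α → List ℕ} {y : α → List Bool} (hn : PTF n) (hk : PTF k)
    (hl : PTF l) (hy : PTF y) : PTF (fun a => certL (n a) (k a) (l a) (y a)) := by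
  unfold certL
  refine PTF.and ?_ (PTF.and ?_ (PTF.and ?_ (PTF.and ?_ (PTF.and ?_ ?_))))
  · refine ptf_ball hn (ptf_ball (hk.comp PTF.id.fst) (ptf_bex (hk.comp PTF.id.fst.fst) ?_))
    exact ptf_cbit (hk.comp PTF.id.fst.fst.fst) (hy.comp PTF.id.fst.fst.fst)
      PTF.id.fst.fst.snd PTF.id.fst.snd PTF.id.snd
  · refine ptf_ball hn (ptf_ball (hk.comp PTF.id.fst) (ptf_bex (hk.comp PTF.id.fst.fst) ?_))
    exact ptf_cbit (hk.comp PTF.id.fst.fst.fst) (hy.comp PTF.id.fst.fst.fst)
      PTF.id.fst.fst.snd PTF.id.snd PTF.id.fst.snd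
  · refine ptf_ball hn (ptf_ball (hk.comp PTF.id.fst) (ptf_ball (hk.comp PTF.id.fst.fst)
      (ptf_ball (hk.comp PTF.id.fst.fst.fst) ?_)))
    refine PTF.or (PTF.not (PTF.and
      (ptf_cbit (hk.comp PTF.id.fst.fst.fst.fst) (hy.comp PTF.id.fst.fst.fst.fst)
        PTF.id.fst.fst.fst.snd PTF.id.fst.fst.snd PTF.id.fst.snd)
      (ptf_cbit (hk.comp PTF.id.fst.fst.fst.fst) (hy.comp PTF.id.fst.fst.fst.fst)
        PTF.id.fst.fst.fst.snd PTF.id.fst.fst.snd PTF.id.snd)))
      (PTF.eq PTF.id.fst.snd PTF.id.snd)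
  · refine ptf_bex hn (ptf_bex (hn.comp PTF.id.fst) ?_)
    exact ptf_rbit (hn.comp PTF.id.fst.fst) (hy.comp PTF.id.fst.fst) PTF.id.fst.snd PTF.id.snd
  · refine ptf_ball hn (PTF.not ?_)
    exact ptf_rbit (hn.comp PTF.id.fst) (hy.comp PTF.id.fst) PTF.id.snd PTF.id.snd
  · refine ptf_ball hn (ptf_ball (hn.comp PTF.id.fst) (ptf_ball (hk.comp PTF.id.fst.fst)
      (ptf_ball (hk.comp PTF.id.fst.fst.fst) (ptf_ball (hk.comp PTF.id.fst.fst.fst.fst) ?_))))
    have hn' : PTF (fun p : ((((α × ℕ) × ℕ) × ℕ) × ℕ) × ℕ => n p.1.1.1.1.1) :=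
      hn.comp PTF.id.fst.fst.fst.fst.fst
    have hk' : PTF (fun p : ((((α × ℕ) × ℕ) × ℕ) × ℕ) × ℕ => k p.1.1.1.1.1) :=
      hk.comp PTF.id.fst.fst.fst.fst.fst
    have hy' : PTF (fun p : ((((α × ℕ) × ℕ) × ℕ) × ℕ) × ℕ => y p.1.1.1.1.1) :=
      hy.comp PTF.id.fst.fst.fst.fst.fst
    have hl' : PTF (fun p : ((((α × ℕ) × ℕ) × ℕ) × ℕ) × ℕ => l p.1.1.1.1.1) :=
      hl.comp PTF.id.fst.fst.fst.fst.fst
    have hu : PTF (fun p : ((((α × ℕ) × ℕ) × ℕ) × ℕ) × ℕ => p.1.1.1.1.2) :=
      PTF.id.fst.fst.fst.fst.snd
    have hv : PTF (fun p : ((((α × ℕ) × ℕ) × ℕ) × ℕ) × ℕ => p.1.1.1.2) :=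
      PTF.id.fst.fst.fst.snd
    have ha : PTF (fun p : ((((α × ℕ) × ℕ) × ℕ) × ℕ) × ℕ => p.1.1.2) := PTF.id.fst.fst.snd
    have he : PTF (fun p : ((((α × ℕ) × ℕ) × ℕ) × ℕ) × ℕ => p.1.2) := PTF.id.fst.snd
    have he' : PTF (fun p : ((((α × ℕ) × ℕ) × ℕ) × ℕ) × ℕ => p.2) := PTF.id.snd
    refine PTF.or (PTF.not (PTF.and (ptf_rbit hn' hy' hu hv) (PTF.and
      (ptf_cbit hk' hy' hu ha he) (ptf_cbit hk' hy' hv ha he')))) ?_
    exact ptf_rbit hn' hy' (ptf_nth hl' (PTF.add (PTF.const 2) (PTF.add (PTF.mul hu hk') he)))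
      (ptf_nth hl' (PTF.add (PTF.const 2) (PTF.add (PTF.mul hv hk') he')))

lemma ptf_verifier : PTF verifier := by
  have hp : PTF (fun a : List Bool × List Bool => parse a.1) := ptf_parse PTF.id.fst
  have h : PTF (fun a : List Bool × List Bool =>
      !(validB a.1) || certL (nth (parse a.1).1 0) (nth (parse a.1).1 1) (parse a.1).1 a.2) := by
    refine PTF.or (PTF.not ?_) (ptf_certL (ptf_nth hp.fst (PTF.const 0))
      (ptf_nth hp.fst (PTF.const 1)) hp.fst PTF.id.snd)
    unfold validB
    exact PTF.and (PTF.isZero hp.snd) (ptf_validL hp.fst)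
  exact h

end ptime

end Pool.Agent.Helper86.Sync
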