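import Mathlib
import Pool.Agent.Helper86.Sync.Code

/-!
# Correctness of the verifier
-/

open Function
open Pool.Agent.Helper91.PolyTime

namespace Pool.Agent.Helper86.Sync

lemma mul_add_unique {k a e a' e' : ℕ} (he : e < k) (he' : e' < k)
    (h : a * k + e = a' * k + e') : a = a' ∧ e = e' := by
  have h1 : (a * k + e) % k = e := by
    rw [Nat.mul_comm, Nat.mul_add_mod]; exact Nat.mod_eq_of_lt he
  have h2 : (a' * k + e') % k = e' := by
    rw [Nat.mul_comm, Nat.mul_add_mod]; exact Nat.mod_eq_of_lt he'
  have h3 : e = e' := by rw [← h1, ← h2, h]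
  subst h3
  have h4 : a * k = a' * k := by omega
  exact ⟨Nat.eq_of_mul_eq_mul_right (by omega) h4, rfl⟩

/-- If all pairs of states can be merged then the automaton is synchronizing. -/
lemma isSync_of_pairs {V A : Type*} [Fintype V] [DecidableEq V] [Nonempty V]
    (δ : V → A → V) (h : ∀ u v, ∃ w, run δ w u = run δ w v) : IsSync δ := by
  let rk : List A → ℕ := fun u => (Finset.univ.image (run δ u)).card
  let u := Function.argmin rk
  have hu : ∀ z, rk u ≤ rk z := fun z => Function.argmin_le rk z
  by_cases hc : (Finset.univ.image (run δ u)).card ≤ 1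
  · rw [Finset.card_le_one] at hc
    obtain ⟨p⟩ : Nonempty V := inferInstance
    exact ⟨u, run δ u p, fun v => hc _ (Finset.mem_image_of_mem _ (Finset.mem_univ v)) _
      (Finset.mem_image_of_mem _ (Finset.mem_univ p))⟩
  · exfalso
    push Not at hc
    obtain ⟨x, hx, y, hy, hxy⟩ := Finset.one_lt_card.1 hc
    obtain ⟨z, hz⟩ := h x y
    have hlt : rk (u ++ z) < rk u := by
      have himg : Finset.univ.image (run δ (u ++ z)) =
          (Finset.univ.image (run δ u)).image (run δ z) := by
        rw [Finset.image_image]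
        congr 1
        funext v
        exact run_append _ _ _ _
      show (Finset.univ.image (run δ (u ++ z))).card < _
      rw [himg]
      refine lt_of_le_of_ne Finset.card_image_le ?_
      intro heq
      have hinj := Finset.card_image_iff.1 heq
      exact hxy (hinj (by exact_mod_cast hx) (by exact_mod_cast hy) hz)
    exact absurd (hu (u ++ z)) (not_le.2 hlt)

lemma nth_cons0 (a : ℕ) (l : List ℕ) : nth (a :: l) 0 = a := rfl

lemma nth_cons1 (a b : ℕ) (l : List ℕ) : nth (a :: b :: l) 1 = b := rfl

lemma nth_heads {n k : ℕ} (head : Fin n → Fin k → Fin n) (v : Fin n) (e : Fin k) :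
    nth (n :: k :: heads head) (2 + (v.1 * k + e.1)) = (head v e).1 := by
  have h : (n :: k :: heads head)[2 + (v.1 * k + e.1)]? = some (head v e).1 := by
    rw [Nat.add_comm, List.getElem?_cons_succ, List.getElem?_cons_succ]
    exact getElem?_heads head v e
  unfold nth
  rw [h]

lemma nth_eq {l : List ℕ} {i : ℕ} (h : i < l.length) : nth l i = l[i] := by
  unfold nth
  rw [List.getElem?_eq_getElem h]

lemma validL_gcode {n k : ℕ} (hn : 0 < n) (hk : 0 < k) (head : Fin n → Fin k → Fin n) :
    validL (n :: k :: heads head) = true := by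
  unfold validL
  simp only [Bool.and_eq_true, decide_eq_true_eq, ball_iff]
  rw [nth_cons0, nth_cons1]
  refine ⟨hn, hk, ?_, fun i hi => ?_⟩
  · simp only [List.length_cons, length_heads]; omega
  · have h1 : 2 + i < (n :: k :: heads head).length := by
      simp only [List.length_cons, length_heads]; omega
    rw [nth_eq h1]
    have h2 : (n :: k :: heads head)[2 + i] = (heads head)[i]'(by rw [length_heads]; exact hi) := by
      have : ∀ j, j = i + 2 → ∀ h : j < (n :: k :: heads head).length,
          (n :: k :: heads head)[j] = (heads head)[i]'(by rw [length_heads]; exact hi) := by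
        rintro j rfl h
        rfl
      exact this _ (by omega) h1
    rw [h2]
    exact heads_lt head _ (List.getElem_mem _)

lemma validB_iff (x : List Bool) : validB x = true ↔
    ∃ (n k : ℕ) (head : Fin n → Fin k → Fin n), 0 < n ∧ 0 < k ∧ x = gcode head := by
  constructor
  · intro h
    simp only [validB, Bool.and_eq_true, decide_eq_true_eq] at h
    obtain ⟨h1, h2⟩ := h
    have hx := codeList_parse h1
    simp only [validL, Bool.and_eq_true, decide_eq_true_eq, ball_iff] at h2
    obtain ⟨hn, hk, hlen, hlt⟩ := h2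
    generalize (parse x).1 = l at hn hk hlen hlt hx
    rcases l with _ | ⟨n, _ | ⟨k, hs⟩⟩
    · exact absurd hn (by decide)
    · exact absurd hk (by simp [nth])
    · rw [nth_cons0] at hn
      rw [nth_cons1] at hk
      rw [nth_cons0, nth_cons1] at hlen hlt
      simp only [List.length_cons] at hlen
      obtain ⟨head, hhead⟩ := exists_heads (n := n) (k := k) hs (by omega) (by
        intro h hh
        obtain ⟨i, hi, rfl⟩ := List.mem_iff_getElem.1 hh
        have h3 := hlt i (by omega)
        have h4 : 2 + i < (n :: k :: hs).length := by simp only [List.length_cons]; omega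
        rw [nth_eq h4] at h3
        have h5 : (n :: k :: hs)[2 + i] = hs[i] := by
          have : ∀ j, j = i + 2 → ∀ h : j < (n :: k :: hs).length,
              (n :: k :: hs)[j] = hs[i] := by
            rintro j rfl h
            rfl
          exact this _ (by omega) h4
        rwa [h5] at h3)
      exact ⟨n, k, head, hn, hk, by rw [gcode, hhead]; exact hx.symm⟩
  · rintro ⟨n, k, head, hn, hk, rfl⟩
    unfold validB gcode
    rw [parse_codeList, validL_gcode hn hk head]
    rfl

lemma cert_sound {n k : ℕ} (head : Fin n → Fin k → Fin n) (y : List Bool)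
    (h : certL n k (n :: k :: heads head) y = true) : ¬ TotSync head := by
  simp only [certL, Bool.and_eq_true, ball_iff, bex_iff, Bool.or_eq_true, Bool.not_eq_true',
    Bool.and_eq_false_imp, decide_eq_true_eq] at h
  obtain ⟨h1, h2, h3, ⟨u, hu, v, hv, huv⟩, h5, h6⟩ := h
  have hfun : ∀ v : Fin n, ∃ σ : Equiv.Perm (Fin k), ∀ a, cbit k y v.1 a.1 (σ a).1 = true := by
    intro v
    have h7 : ∀ a : Fin k, ∃ e : Fin k, cbit k y v.1 a.1 e.1 = true := by
      intro a
      obtain ⟨e, he, h8⟩ := h1 v.1 v.2 a.1 a.2
      exact ⟨⟨e, he⟩, h8⟩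
    choose f hf using h7
    have hsurj : Function.Surjective f := by
      intro e
      obtain ⟨a, ha, h8⟩ := h2 v.1 v.2 e.1 e.2
      refine ⟨⟨a, ha⟩, ?_⟩
      rcases h3 v.1 v.2 a ha (f ⟨a, ha⟩).1 (f ⟨a, ha⟩).2 e.1 e.2 with h9 | h9
      · have := h9 (hf ⟨a, ha⟩)
        rw [h8] at this
        simp at this
      · exact Fin.ext h9
    refine ⟨Equiv.ofBijective f (Finite.injective_iff_bijective.1
      (Finite.injective_iff_surjective.2 hsurj)), fun a => ?_⟩
    exact hf a
  choose σ hσ using hfun
  intro hT
  obtain ⟨w, q, hw⟩ := hT σ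
  have key : ∀ (w : List (Fin k)) (u v : Fin n), rbit n y u.1 v.1 = true →
      run (fun v a => head v (σ v a)) w u ≠ run (fun v a => head v (σ v a)) w v := by
    intro w
    induction w with
    | nil =>
      intro u v huv h7
      have h8 : u = v := h7
      have := h5 u.1 u.2
      rw [h8] at huv
      rw [h8, huv] at this
      simp at this
    | cons a w ih =>
      intro u v huv
      refine ih _ _ ?_
      rcases h6 u.1 u.2 v.1 v.2 a.1 a.2 (σ u a).1 (σ u a).2 (σ v a).1 (σ v a).2 with h7 | h7
      · have := h7 huv (hσ u a)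
        rw [hσ v a] at this
        simp at this
      · rw [nth_heads, nth_heads] at h7
        exact h7
  exact key w ⟨u, hu⟩ ⟨v, hv⟩ huv ((hw _).trans (hw _).symm)

lemma cert_complete {n k : ℕ} (hn : 0 < n) (head : Fin n → Fin k → Fin n)
    (h : ¬ TotSync head) : ∃ y : List Bool, y.length = 2 * (n * k * k + n * n) + 2 ∧
      certL n k (n :: k :: heads head) y = true := by
  classical
  unfold TotSync at h
  push Not at h
  obtain ⟨σ, hσ⟩ := h
  set δ : Fin n → Fin k → Fin n := fun v a => head v (σ v a) with hδ
  let Rel : Fin n → Fin n → Prop := fun u v => ∀ w, run δ w u ≠ run δ w v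
  have hex : ∃ u v, Rel u v := by
    by_contra hcon
    push Not at hcon
    have : Nonempty (Fin n) := ⟨⟨0, hn⟩⟩
    refine hσ (isSync_of_pairs δ fun u v => ?_)
    have := hcon u v
    simp only [Rel] at this
    push Not at this
    exact this
  let f : ℕ → Bool := fun i => decide ((i % 2 = 0 ∧ ∃ (v : Fin n) (a e : Fin k),
    i / 2 = (v.1 * k + a.1) * k + e.1 ∧ σ v a = e) ∨ (i % 2 = 1 ∧ ∃ (u v : Fin n),
    i / 2 = u.1 * n + v.1 ∧ Rel u v))
  let y := (List.range (2 * (n * k * k + n * n) + 2)).map f
  have hbit : ∀ i, i < 2 * (n * k * k + n * n) + 2 → bit y i = f i := by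
    intro i hi
    unfold bit
    have h1 : y[i]? = some (f i) := by
      simp only [y, List.getElem?_map]
      rw [List.getElem?_range hi]
      rfl
    rw [h1]
  have hc : ∀ (v : Fin n) (a e : Fin k), cbit k y v.1 a.1 e.1 = true ↔ σ v a = e := by
    intro v a e
    have hlt : (v.1 * k + a.1) * k + e.1 < n * k * k := by
      have h1 := v.2
      have h2 := a.2
      have h3 := e.2
      have h4 : v.1 * k + a.1 + 1 ≤ n * k := by nlinarith
      nlinarith
    unfold cbit
    rw [hbit _ (by omega)]
    simp only [f, decide_eq_true_eq]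
    constructor
    · rintro (⟨-, v', a', e', h1, h2⟩ | ⟨h1, -⟩)
      · rw [Nat.mul_div_cancel_left _ (by omega)] at h1
        obtain ⟨h3, h4⟩ := mul_add_unique e.2 e'.2 h1
        obtain ⟨h5, h6⟩ := mul_add_unique a.2 a'.2 h3
        have h7 : v = v' := Fin.ext h5
        have h8 : a = a' := Fin.ext h6
        have h9 : e = e' := Fin.ext h4
        rw [h7, h8, h9]; exact h2
      · omega
    · intro h1
      refine Or.inl ⟨by omega, v, a, e, ?_, h1⟩
      rw [Nat.mul_div_cancel_left _ (by omega)]
  have hr : ∀ (u v : Fin n), rbit n y u.1 v.1 = true ↔ Rel u v := by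
    intro u v
    have hlt : u.1 * n + v.1 < n * n := by
      have h1 := v.2
      have h2 := u.2
      nlinarith
    unfold rbit
    rw [hbit _ (by omega)]
    simp only [f, decide_eq_true_eq]
    have hdiv : (2 * (u.1 * n + v.1) + 1) / 2 = u.1 * n + v.1 := by omega
    constructor
    · rintro (⟨h1, -⟩ | ⟨-, u', v', h1, h2⟩)
      · omega
      · rw [hdiv] at h1
        obtain ⟨h3, h4⟩ := mul_add_unique v.2 v'.2 h1
        have h5 : u = u' := Fin.ext h3
        have h6 : v = v' := Fin.ext h4
        rw [h5, h6]; exact h2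
    · intro h1
      exact Or.inr ⟨by omega, u, v, hdiv, h1⟩
  refine ⟨y, by simp [y], ?_⟩
  simp only [certL, Bool.and_eq_true, ball_iff, bex_iff, Bool.or_eq_true, Bool.not_eq_true',
    Bool.and_eq_false_imp, decide_eq_true_eq]
  refine ⟨?_, ?_, ?_, ?_, ?_, ?_⟩
  · intro v hv a ha
    exact ⟨(σ ⟨v, hv⟩ ⟨a, ha⟩).1, (σ ⟨v, hv⟩ ⟨a, ha⟩).2, (hc ⟨v, hv⟩ ⟨a, ha⟩ _).2 rfl⟩
  · intro v hv e he
    refine ⟨((σ ⟨v, hv⟩).symm ⟨e, he⟩).1, ((σ ⟨v, hv⟩).symm ⟨e, he⟩).2,
      (hc ⟨v, hv⟩ ((σ ⟨v, hv⟩).symm ⟨e, he⟩) ⟨e, he⟩).2 ?_⟩
    rw [Equiv.apply_symm_apply]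
  · intro v hv a ha e he e' he'
    by_cases h1 : cbit k y v a e = true
    · by_cases h2 : cbit k y v a e' = true
      · right
        have h3 := (hc ⟨v, hv⟩ ⟨a, ha⟩ ⟨e, he⟩).1 h1
        have h4 := (hc ⟨v, hv⟩ ⟨a, ha⟩ ⟨e', he'⟩).1 h2
        have h5 := h3.symm.trans h4
        exact congrArg Fin.val h5
      · left
        intro _
        simpa using h2
    · left
      intro h2
      exact absurd h2 h1
  · obtain ⟨u, v, huv⟩ := hex
    exact ⟨u.1, u.2, v.1, v.2, (hr u v).2 huv⟩
  · intro u hu
    rw [Bool.eq_false_iff]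
    intro h1
    exact (hr ⟨u, hu⟩ ⟨u, hu⟩).1 h1 [] rfl
  · intro u hu v hv a ha e he e' he'
    by_cases h0 : rbit n y u v = true
    · by_cases h1 : cbit k y u a e = true
      · by_cases h2 : cbit k y v a e' = true
        · right
          have h3 := (hc ⟨u, hu⟩ ⟨a, ha⟩ ⟨e, he⟩).1 h1
          have h4 := (hc ⟨v, hv⟩ ⟨a, ha⟩ ⟨e', he'⟩).1 h2
          have h5 := (hr ⟨u, hu⟩ ⟨v, hv⟩).1 h0
          have h6 := nth_heads head ⟨u, hu⟩ ⟨e, he⟩
          have h7 := nth_heads head ⟨v, hv⟩ ⟨e', he'⟩
          simp only at h6 h7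
          rw [h6, h7, hr]
          intro w
          have h8 := h5 (⟨a, ha⟩ :: w)
          have h9 : ∀ z : Fin n, run δ (⟨a, ha⟩ :: w) z = run δ w (δ z ⟨a, ha⟩) := fun z => rfl
          rw [h9, h9] at h8
          simp only [hδ] at h8 ⊢
          rw [h3, h4] at h8
          exact h8
        · left
          intro _ _
          simpa using h2
      · left
        intro _ h2
        exact absurd h2 h1
    · left
      intro h2
      exact absurd h2 h0

lemma length_codeList (l : List ℕ) : (codeList l).length = l.sum + l.length := by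
  induction l with
  | nil => rfl
  | cons a l ih =>
    have h : codeList (a :: l) = unary a ++ codeList l := rfl
    rw [h, List.length_append, ih, List.sum_cons, List.length_cons]
    simp [unary]
    omega

/-- The bound for the length of the certificates. -/
noncomputable def certBound : Polynomial ℕ :=
  2 * (Polynomial.X ^ 3 + Polynomial.X ^ 2) + 2

theorem verifier_iff (x : List Bool) :
    (∃ y : List Bool, y.length ≤ certBound.eval x.length ∧ verifier (x, y) = true) ↔
      ¬ ∃ (n k : ℕ) (head : Fin n → Fin k → Fin n), 0 < n ∧ 0 < k ∧ x = gcode head ∧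
        TotSync head := by
  have hpar : ∀ {n k : ℕ} (head : Fin n → Fin k → Fin n), x = gcode head →
      (parse x).1 = n :: k :: heads head := by
    intro n k head hx
    rw [hx, gcode, parse_codeList]
  constructor
  · rintro ⟨y, -, hy⟩ ⟨n, k, head, hn, hk, hx, hT⟩
    simp only [verifier, Bool.or_eq_true, Bool.not_eq_true'] at hy
    rcases hy with hy | hy
    · rw [(validB_iff x).2 ⟨n, k, head, hn, hk, hx⟩] at hy
      simp at hy
    · rw [hpar head hx, nth_cons0, nth_cons1] at hy
      exact cert_sound head y hy hT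
  · intro h
    by_cases hv : validB x = true
    · obtain ⟨n, k, head, hn, hk, hx⟩ := (validB_iff x).1 hv
      have hT : ¬ TotSync head := fun hT => h ⟨n, k, head, hn, hk, hx, hT⟩
      obtain ⟨y, hy, hy'⟩ := cert_complete hn head hT
      refine ⟨y, ?_, ?_⟩
      · rw [hy]
        have hlen : n + k ≤ x.length := by
          rw [hx, gcode, length_codeList]
          simp only [List.sum_cons]
          omega
        have hn' : n ≤ x.length := by omega
        have hk' : k ≤ x.length := by omega
        have h1 : n * k * k ≤ x.length ^ 3 := by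
          calc n * k * k ≤ x.length * x.length * x.length :=
                Nat.mul_le_mul (Nat.mul_le_mul hn' hk') hk'
            _ = x.length ^ 3 := by ring
        have h2 : n * n ≤ x.length ^ 2 := by
          calc n * n ≤ x.length * x.length := Nat.mul_le_mul hn' hn'
            _ = x.length ^ 2 := by ring
        simp only [certBound, Polynomial.eval_add, Polynomial.eval_mul, Polynomial.eval_ofNat,
          Polynomial.eval_pow, Polynomial.eval_X]
        omega
      · simp only [verifier, Bool.or_eq_true]
        right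
        rw [hpar head hx, nth_cons0, nth_cons1]
        exact hy'
    · refine ⟨[], by simp, ?_⟩
      simp only [verifier, Bool.or_eq_true, Bool.not_eq_true']
      left
      simpa using hv

end Pool.Agent.Helper86.Sync
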